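import Pool.Agent.H181R4.GL.Defs

/-! Local characterisation of `best`. -/

set_option autoImplicit false

namespace Pool.Agent.H181R4.GL

open Relation

namespace GameTree

variable {m : ℕ} {V : Type} (G : GameTree m V)

lemma acyclic (x : V) : ¬ TransGen G.move x x := by
  have h := G.reachable x
  induction h with
  | refl =>
    intro h
    obtain ⟨z, _, hz⟩ := (TransGen.tail'_iff).mp h
    exact G.root_no_parent _ hz
  | tail hab hbc ih =>
    rename_i b c
    intro h
    obtain ⟨z, hz1, hz2⟩ := (TransGen.tail'_iff).mp h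
    have : z = b := G.parent_unique _ _ _ hz2 hbc
    subst this
    exact ih (TransGen.head' hbc hz1)

lemma wf [Finite V] : WellFounded (fun y x => G.move x y) := by
  have h1 : WellFounded (fun y x => TransGen G.move x y) := by
    haveI : IsTrans V (fun y x => TransGen G.move x y) := ⟨fun a b c h1 h2 => h2.trans h1⟩
    haveI : Std.Irrefl (fun y x => TransGen G.move x y) := ⟨fun a h => G.acyclic a h⟩
    exact Finite.wellFounded_of_trans_of_irrefl _
  exact Subrelation.wf (fun h => TransGen.single h) h1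

/-- numerical representation of the preferences -/
lemma exists_rank [Finite V] : ∃ r : Fin m → V → ℕ, ∀ i u v, G.End u → G.End v →
    (G.pref i u v ↔ r i u ≤ r i v) := by
  classical
  refine ⟨fun i u => {w | G.End w ∧ G.pref i w u}.ncard, fun i u v hu hv => ⟨fun h => ?_, fun h => ?_⟩⟩
  · exact Set.ncard_le_ncard (fun w hw => ⟨hw.1, G.pref_trans i w u v hw.1 hu hv hw.2 h⟩) (Set.toFinite _)
  · by_contra h1
    have h2 := (G.pref_total i u v hu hv).resolve_left h1
    have h3 : {w | G.End w ∧ G.pref i w v} ⊂ {w | G.End w ∧ G.pref i w u} := by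
      refine ⟨fun w hw => ⟨hw.1, G.pref_trans i w v u hw.1 hv hu hw.2 h2⟩, fun h4 => ?_⟩
      exact h1 (h4 ⟨hu, G.pref_refl i u hu⟩).2
    exact absurd h (not_le.mpr (Set.ncard_lt_ncard h3 (Set.toFinite _)))

/-- end nodes reachable by `A` -/
def Rch (A : V → V → Prop) (x u : V) : Prop := G.End u ∧ ReflTransGen A x u

/-- strict domination with respect to the numbers `r` -/
def Dom (r : Fin m → V → ℕ) (A : V → V → Prop) (i : Fin m) (y z : V) : Prop :=
  ∀ u v, G.Rch A y u → G.Rch A z v → r i u < r i v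

variable {G}
variable {r : Fin m → V → ℕ}

lemma step_iff (hr : ∀ i u v, G.End u → G.End v → (G.pref i u v ↔ r i u ≤ r i v))
    (A : V → V → Prop) (x y : V) :
    G.step A x y ↔ A x y ∧ ¬ ∃ z, z ≠ y ∧ A x z ∧ G.Dom r A (G.turn x) y z := by
  unfold step Dom Rch
  refine and_congr_right fun _ => not_congr (exists_congr fun z => and_congr_right fun _ =>
    and_congr_right fun _ => ⟨fun h u v hu hv => ?_, fun h u v hu hv hu' hv' => ?_⟩)
  · have h1 := h u v hu.1 hv.1 hu.2 hv.2
    rw [hr _ _ _ hu.1 hv.1, hr _ _ _ hv.1 hu.1] at h1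
    omega
  · have h1 := h u v ⟨hu, hu'⟩ ⟨hv, hv'⟩
    rw [hr _ _ _ hu hv, hr _ _ _ hv hu]
    omega

lemma active_succ_le (k : ℕ) (x y : V) (h : G.active (k + 1) x y) : G.active k x y := h.1

lemma active_anti {k l : ℕ} (h : k ≤ l) {x y : V} (h1 : G.active l x y) : G.active k x y := by
  induction h with
  | refl => exact h1
  | step _ ih => exact ih (active_succ_le _ _ _ h1)

lemma exists_stable [Finite V] : ∃ K, ∀ k ≥ K, G.active k = G.active K := by
  classical
  let S : ℕ → Set (V × V) := fun k => {p | G.active k p.1 p.2}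
  have hanti : ∀ {k l : ℕ}, k ≤ l → S l ⊆ S k := fun h p hp => active_anti h hp
  obtain ⟨K, hK⟩ : ∃ K, ∀ k, (S K).ncard ≤ (S k).ncard := by
    obtain ⟨K, hK⟩ := Function.argmin_le (fun k => (S k).ncard) 0 |> fun _ =>
      (⟨Function.argmin (fun k => (S k).ncard), fun k => Function.argmin_le (fun k => (S k).ncard) k⟩ :
        ∃ K, ∀ k, (S K).ncard ≤ (S k).ncard)
    exact ⟨K, hK⟩
  refine ⟨K, fun k hk => ?_⟩
  have h1 : S k = S K := Set.eq_of_subset_of_ncard_le (hanti hk) (hK k) (Set.toFinite _)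
  funext x y
  have := Set.ext_iff.mp h1 (x, y)
  exact propext this

lemma rch_nonempty [Finite V] {A : V → V → Prop} (hA : ∀ x y, A x y → G.move x y)
    (hne : ∀ x, ¬ G.End x → ∃ y, A x y) (x : V) : ∃ u, G.Rch A x u := by
  induction x using G.wf.induction with
  | _ x ih =>
    by_cases hx : G.End x
    · exact ⟨x, hx, ReflTransGen.refl⟩
    · obtain ⟨y, hy⟩ := hne x hx
      obtain ⟨u, hu1, hu2⟩ := ih y (hA x y hy)
      exact ⟨u, hu1, ReflTransGen.head hy hu2⟩

lemma exists_min [Finite V] (r : Fin m → V → ℕ) {A : V → V → Prop} (i : Fin m) {x : V}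
    (h : ∃ u, G.Rch A x u) : ∃ u, G.Rch A x u ∧ ∀ v, G.Rch A x v → r i u ≤ r i v := by
  obtain ⟨u, hu, hu'⟩ := Set.exists_min_image {u | G.Rch A x u} (r i) (Set.toFinite _) h
  exact ⟨u, hu, fun v hv => hu' v hv⟩

lemma max_survive [Finite V] (hr : ∀ i u v, G.End u → G.End v → (G.pref i u v ↔ r i u ≤ r i v))
    {A : V → V → Prop} (hA : ∀ x y, A x y → G.move x y)
    (hne : ∀ x, ¬ G.End x → ∃ y, A x y) {x y0 : V} (hxy : A x y0) :
    ∃ z, G.step A x z ∧ ∀ y, A x y → ¬ G.step A x y → G.Dom r A (G.turn x) y z := by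
  classical
  have h0 : ∀ z, ∃ u, G.Rch A z u ∧ ∀ v, G.Rch A z v → r (G.turn x) u ≤ r (G.turn x) v :=
    fun z => exists_min r _ (rch_nonempty hA hne z)
  choose f hf1 hf2 using h0
  obtain ⟨z, hz, hmax⟩ := Set.exists_max_image {z | A x z} (fun z => r (G.turn x) (f z))
    (Set.toFinite _) ⟨y0, hxy⟩
  refine ⟨z, (step_iff hr A x z).mpr ⟨hz, ?_⟩, fun y hy hy' => ?_⟩
  · rintro ⟨w, _, hw, hdom⟩
    have h1 := hdom (f z) (f w) (hf1 z) (hf1 w)
    have h2 := hmax w hw
    omega
  · rw [step_iff hr] at hy'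
    push Not at hy'
    obtain ⟨w, _, hw, hdom⟩ := hy' hy
    intro u v hu hv
    have h1 := hdom u (f w) hu (hf1 w)
    have h2 := hmax w hw
    have h3 := hf2 z v hv
    omega

lemma active_ne [Finite V] (k : ℕ) : ∀ x, ¬ G.End x → ∃ y, G.active k x y := by
  obtain ⟨r, hr⟩ := G.exists_rank
  induction k with
  | zero =>
    intro x hx
    unfold End at hx
    push Not at hx
    exact hx
  | succ k ih =>
    intro x hx
    obtain ⟨y, hy⟩ := ih x hx
    obtain ⟨z, hz, _⟩ := max_survive hr (fun x y h => active_anti (Nat.zero_le k) h) ih hy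
    exact ⟨z, hz⟩

lemma best_move {x y : V} (h : G.best x y) : G.move x y := h 0

lemma best_ne [Finite V] : ∀ x, ¬ G.End x → ∃ y, G.best x y := by
  obtain ⟨K, hK⟩ := G.exists_stable
  intro x hx
  obtain ⟨y, hy⟩ := active_ne K x hx
  refine ⟨y, fun k => ?_⟩
  rcases le_total k K with h | h
  · exact active_anti h hy
  · rw [hK k h]
    exact hy

lemma rch_best_nonempty [Finite V] (x : V) : ∃ u, G.Rch G.best x u :=
  rch_nonempty (fun _ _ h => best_move h) best_ne x

lemma rch_mono {A B : V → V → Prop} (h : ∀ x y, A x y → B x y) {x u : V} (hu : G.Rch A x u) :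
    G.Rch B x u := ⟨hu.1, ReflTransGen.mono h _ _ hu.2⟩

lemma dom_trans [Finite V] {i : Fin m} {y z w : V} (h1 : G.Dom r G.best i y z)
    (h2 : G.Dom r G.best i z w) : G.Dom r G.best i y w := by
  intro u v hu hv
  obtain ⟨t, ht⟩ := rch_best_nonempty (G := G) z
  exact (h1 u t hu ht).trans (h2 t v ht hv)

lemma dominated_by_best [Finite V]
    (hr : ∀ i u v, G.End u → G.End v → (G.pref i u v ↔ r i u ≤ r i v)) (x : V) (k : ℕ) (y : V)
    (h : G.active k x y) : G.best x y ∨ ∃ z, G.best x z ∧ G.Dom r G.best (G.turn x) y z := by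
  obtain ⟨K, hK⟩ := G.exists_stable
  have key : ∀ n k, K ≤ k + n → ∀ y, G.active k x y →
      G.best x y ∨ ∃ z, G.best x z ∧ G.Dom r G.best (G.turn x) y z := by
    intro n
    induction n with
    | zero =>
      intro k hk y hy
      left
      intro l
      rcases le_total l k with h | h
      · exact active_anti h hy
      · rw [hK l (by omega), ← hK k (by omega)]
        exact hy
    | succ n ih =>
      intro k hk y hy
      by_cases h1 : G.active (k + 1) x y
      · exact ih (k + 1) (by omega) y h1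
      · obtain ⟨z, hz, hz'⟩ := max_survive hr (fun x y h => active_anti (Nat.zero_le k) h)
          (active_ne k) hy
        have h2 : G.Dom r G.best (G.turn x) y z := by
          intro u v hu hv
          exact hz' y hy h1 u v (rch_mono (fun _ _ h => h k) hu) (rch_mono (fun _ _ h => h k) hv)
        right
        rcases ih (k + 1) (by omega) z hz with h3 | ⟨w, hw1, hw2⟩
        · exact ⟨z, h3, h2⟩
        · exact ⟨w, hw1, dom_trans h2 hw2⟩
  exact key K k (by omega) y h

/-- The local characterisation of `best`. -/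
theorem best_iff [Finite V]
    (hr : ∀ i u v, G.End u → G.End v → (G.pref i u v ↔ r i u ≤ r i v)) (x y : V) :
    G.best x y ↔ G.move x y ∧ ∀ z, G.move x z → ¬ G.Dom r G.best (G.turn x) y z := by
  obtain ⟨K, hK⟩ := G.exists_stable
  constructor
  · intro h
    refine ⟨best_move h, fun z hz hdom => ?_⟩
    obtain ⟨w, hw1, hw2⟩ : ∃ w, G.best x w ∧ G.Dom r G.best (G.turn x) y w := by
      rcases dominated_by_best hr x 0 z hz with h3 | ⟨w, hw1, hw2⟩
      · exact ⟨z, h3, hdom⟩
      · exact ⟨w, hw1, dom_trans hdom hw2⟩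
    have h1 : G.step (G.active K) x y := h (K + 1)
    rw [step_iff hr] at h1
    apply h1.2
    refine ⟨w, ?_, hw1 K, ?_⟩
    · rintro rfl
      obtain ⟨t, ht⟩ := rch_best_nonempty (G := G) w
      exact lt_irrefl _ (hw2 t t ht ht)
    · have hA : G.active K = G.best := by
        funext a b
        refine propext ⟨fun h k => ?_, fun h => h K⟩
        rcases le_total k K with h' | h'
        · exact active_anti h' h
        · rw [hK k h']
          exact h
      rw [hA]
      exact hw2
  · rintro ⟨h1, h2⟩ k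
    induction k with
    | zero => exact h1
    | succ k ih =>
      show G.step (G.active k) x y
      rw [step_iff hr]
      refine ⟨ih, ?_⟩
      rintro ⟨z, _, hz, hdom⟩
      refine h2 z (active_anti (Nat.zero_le k) hz) fun u v hu hv => ?_
      exact hdom u v (rch_mono (fun _ _ h => h k) hu) (rch_mono (fun _ _ h => h k) hv)

lemma rch_iff (A : V → V → Prop) (hA : ∀ x y, A x y → G.move x y) (x u : V) :
    G.Rch A x u ↔ (G.End x ∧ u = x) ∨ ∃ y, A x y ∧ G.Rch A y u := by
  constructor
  · rintro ⟨h1, h2⟩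
    rcases ReflTransGen.cases_head h2 with h | ⟨y, hy, hy'⟩
    · subst h
      exact Or.inl ⟨h1, rfl⟩
    · exact Or.inr ⟨y, hy, h1, hy'⟩
  · rintro (⟨h1, rfl⟩ | ⟨y, hy, h1, h2⟩)
    · exact ⟨h1, ReflTransGen.refl⟩
    · exact ⟨h1, ReflTransGen.head hy h2⟩

end GameTree

end Pool.Agent.H181R4.GL
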