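import Pool.Agent.H181R4.GL.ToDer

/-! From derivations back to game trees. -/

set_option autoImplicit false

namespace Pool.Agent.H181R4.GL

open Relation

variable {m : ℕ} {Γ : Set (Form m)} {θ : Fin m → Form m → WithBot ℚ}

lemma Local.of_surj {ι ι' : Type} {i : Fin m} {d' : ι' → Dt m} {e : Dt m} {g : ι → ι'}
    (hg : Function.Surjective g) (h : Local Γ i (fun j => d' (g j)) e) : Local Γ i d' e := by
  have hb : ∀ j, bst i d' (g j) ↔ bst i (fun j => d' (g j)) j := by
    intro j
    exact ⟨fun h l => h (g l), fun h l => by obtain ⟨l', rfl⟩ := hg l; exact h l'⟩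
  refine ⟨h.ne.map g, h.sub, fun χ hχ => ?_, fun k => ?_, fun k j hj => ?_, fun k => ?_,
    fun k j hj => ?_, fun p => ?_⟩
  · refine (h.tc χ hχ).congr (fun ψ => ?_) (fun ψ => ?_) fun _ _ _ => Iff.rfl
    · exact ⟨fun ⟨j, hj⟩ => ⟨g j, hj⟩, fun ⟨j, hj⟩ => by obtain ⟨l', rfl⟩ := hg j; exact ⟨l', hj⟩⟩
    · constructor
      · rintro ⟨j, h1, h2⟩
        exact ⟨g j, (hb j).mpr h1, h2⟩
      · rintro ⟨j, h1, h2⟩
        obtain ⟨l', rfl⟩ := hg j
        exact ⟨l', (hb l').mp h1, h2⟩
  · obtain ⟨j, h1, h2⟩ := h.lo1 k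
    exact ⟨g j, (hb j).mpr h1, h2⟩
  · obtain ⟨l', rfl⟩ := hg j
    exact h.lo2 k l' ((hb l').mp hj)
  · obtain ⟨j, h1, h2⟩ := h.hi1 k
    exact ⟨g j, (hb j).mpr h1, h2⟩
  · obtain ⟨l', rfl⟩ := hg j
    exact h.hi2 k l' ((hb l').mp hj)
  · rw [h.att p]
    exact ⟨fun ⟨j, hj⟩ => ⟨g j, hj⟩, fun ⟨j, hj⟩ => by obtain ⟨l', rfl⟩ := hg j; exact ⟨l', hj⟩⟩

/-- Annotated trees. -/
structure Pre (Γ : Set (Form m)) (θ : Fin m → Form m → WithBot ℚ) {V : Type} (root : V)
    (move : V → V → Prop) (turn : V → Fin m) (D : V → Dt m) (rk : V → ℕ) : Prop where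
  no_root : ∀ x, ¬ move x root
  uniq : ∀ x y z, move x z → move y z → x = y
  par : ∀ x, x ≠ root → ∃ y, move y x
  rk_lt : ∀ x y, move x y → rk y < rk x
  leaf : ∀ x, (∀ y, ¬ move x y) → LeafOK Γ θ (D x)
  node : ∀ x, (∃ y, move x y) → Local Γ (turn x) (fun y : {y // move x y} => D y) (D x)

/-- The move relation of a tree built from subtrees. -/
inductive Mv {ι : Type} {V : ι → Type} (root : ∀ j, V j) (move : ∀ j, V j → V j → Prop) :
    Option (Σ j, V j) → Option (Σ j, V j) → Prop
  | root (j : ι) : Mv root move none (some ⟨j, root j⟩)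
  | inner (j : ι) (x y : V j) : move j x y → Mv root move (some ⟨j, x⟩) (some ⟨j, y⟩)

lemma sz_pos (b n : ℕ) : 1 ≤ sz b n := by
  cases n <;> simp [sz]

theorem build (i0 : Fin m) (b n : ℕ) : ∀ e : Dt m, DerB Γ θ b n e →
    ∃ (V : Type) (_ : Finite V) (root : V) (move : V → V → Prop) (turn : V → Fin m)
      (D : V → Dt m) (rk : V → ℕ), Pre Γ θ root move turn D rk ∧ D root = e ∧ Nat.card V ≤ sz b n := by
  have hleaf : ∀ (n : ℕ) (e : Dt m), LeafOK Γ θ e →
      ∃ (V : Type) (_ : Finite V) (root : V) (move : V → V → Prop) (turn : V → Fin m)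
        (D : V → Dt m) (rk : V → ℕ), Pre Γ θ root move turn D rk ∧ D root = e ∧
          Nat.card V ≤ sz b n := by
    intro n e h
    refine ⟨Unit, inferInstance, (), fun _ _ => False, fun _ => i0, fun _ => e, fun _ => 0,
      ⟨fun _ h => h, fun _ _ _ h => h.elim, fun x hx => absurd rfl hx, fun _ _ h => h.elim,
        fun _ _ => h, fun _ ⟨_, h⟩ => h.elim⟩, rfl, ?_⟩
    simpa using sz_pos b n
  induction n with
  | zero => exact fun e h => hleaf 0 e h
  | succ n ih =>
    intro e h
    rcases h with h | ⟨ι, hι, i, d, hcard, hd, hloc⟩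
    · exact hleaf _ e h
    · choose V hfin root move turn D rk hpre hroot hV using fun j => ih (d j) (hd j)
      classical
      haveI := Fintype.ofFinite ι
      obtain ⟨M, hM⟩ : ∃ M, ∀ j, rk j (root j) < M :=
        ⟨(Finset.univ.sup fun j => rk j (root j)) + 1, fun j =>
          Nat.lt_succ_of_le (Finset.le_sup (f := fun j => rk j (root j)) (Finset.mem_univ j))⟩
      let D' : Option (Σ j, V j) → Dt m := fun x => x.elim e fun p => D p.1 p.2
      let turn' : Option (Σ j, V j) → Fin m := fun x => x.elim i fun p => turn p.1 p.2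
      let rk' : Option (Σ j, V j) → ℕ := fun x => x.elim M fun p => rk p.1 p.2
      refine ⟨Option (Σ j, V j), inferInstance, none, Mv root move, turn', D', rk', ?_, rfl, ?_⟩
      · refine ⟨?_, ?_, ?_, ?_, ?_, ?_⟩
        · intro x h
          cases h
        · intro x y z hx hy
          cases hx with
          | root j =>
            cases hy with
            | root j => rfl
            | inner j x y h => exact absurd h ((hpre j).no_root x)
          | inner j x y h =>
            cases hy with
            | root j => exact absurd h ((hpre j).no_root x)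
            | inner j x' y h' => rw [(hpre j).uniq x x' y h h']
        · rintro (_ | ⟨j, x⟩) hx
          · exact absurd rfl hx
          · by_cases h : x = root j
            · subst h
              exact ⟨none, Mv.root j⟩
            · obtain ⟨y, hy⟩ := (hpre j).par x h
              exact ⟨some ⟨j, y⟩, Mv.inner j y x hy⟩
        · intro x y h
          cases h with
          | root j => exact hM j
          | inner j x y h => exact (hpre j).rk_lt x y h
        · rintro (_ | ⟨j, x⟩) hx
          · obtain ⟨j⟩ := hloc.ne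
            exact absurd (Mv.root j) (hx _)
          · exact (hpre j).leaf x fun y hy => hx _ (Mv.inner j x y hy)
        · rintro (_ | ⟨j, x⟩) hx
          · let g : ι → {y // Mv root move none y} := fun j => ⟨some ⟨j, root j⟩, Mv.root j⟩
            have hg : Function.Surjective g := by
              rintro ⟨y, hy⟩
              cases hy with
              | root j => exact ⟨j, rfl⟩
            refine Local.of_surj hg ?_
            have : (fun j => (fun y : {y // Mv root move none y} => D' y) (g j)) = d := by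
              funext j
              exact hroot j
            rw [this]
            exact hloc
          · have hx' : ∃ y, move j x y := by
              obtain ⟨y, hy⟩ := hx
              cases hy with
              | inner _ _ y h => exact ⟨y, h⟩
            let g : {y // move j x y} → {y // Mv root move (some ⟨j, x⟩) y} :=
              fun y => ⟨some ⟨j, y.1⟩, Mv.inner j x y.1 y.2⟩
            have hg : Function.Surjective g := by
              rintro ⟨y, hy⟩
              cases hy with
              | inner _ _ y h => exact ⟨⟨y, h⟩, rfl⟩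
            exact Local.of_surj hg ((hpre j).node x hx')
      · rw [Finite.card_option, Nat.card_sigma]
        have h1 : ∑ j, Nat.card (V j) ≤ Nat.card ι * sz b n := by
          rw [Nat.card_eq_fintype_card, ← smul_eq_mul, ← Finset.card_univ]
          exact Finset.sum_le_card_nsmul _ _ _ fun j _ => hV j
        have h2 : Nat.card ι * sz b n ≤ b * sz b n := Nat.mul_le_mul_right _ hcard
        simp only [sz]
        omega

/-- The game tree of an annotated tree. -/
theorem Pre.reach {V : Type} [Finite V] {root : V} {move : V → V → Prop} {turn : V → Fin m}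
    {D : V → Dt m} {rk : V → ℕ} (h : Pre Γ θ root move turn D rk) (x : V) :
    ReflTransGen move root x := by
  classical
  haveI := Fintype.ofFinite V
  obtain ⟨M, hM⟩ : ∃ M, ∀ x, rk x ≤ M :=
    ⟨Finset.univ.sup rk, fun x => Finset.le_sup (Finset.mem_univ x)⟩
  have key : ∀ n x, M ≤ rk x + n → ReflTransGen move root x := by
    intro n
    induction n with
    | zero =>
      intro x hx
      by_cases h1 : x = root
      · rw [h1]
      · obtain ⟨y, hy⟩ := h.par x h1
        have := h.rk_lt y x hy
        have := hM y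
        omega
    | succ n ih =>
      intro x hx
      by_cases h1 : x = root
      · rw [h1]
      · obtain ⟨y, hy⟩ := h.par x h1
        have := h.rk_lt y x hy
        exact (ih y (by omega)).tail hy
  exact key M x (by omega)

/-- The game tree of an annotated tree. -/
def Pre.game {V : Type} [Finite V] {root : V} {move : V → V → Prop} {turn : V → Fin m}
    {D : V → Dt m} {rk : V → ℕ} (h : Pre Γ θ root move turn D rk) : GameTree m V where
  root := root
  move := move
  turn := turn
  pref i u v := (D u).lo i ≤ (D v).lo i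
  root_no_parent := h.no_root
  parent_unique := h.uniq
  reachable := h.reach
  pref_refl i x _ := le_rfl
  pref_trans i x y z _ _ _ h1 h2 := le_trans h1 h2
  pref_total i x y _ _ := le_total _ _

theorem pre_sat {V : Type} [Finite V] {root : V} {move : V → V → Prop} {turn : V → Fin m}
    {D : V → Dt m} {rk : V → ℕ} (h : Pre Γ θ root move turn D rk) (hcl : Cl Γ)
    (hθ : ∀ i ψ, Form.dia (.pref i) ψ ∈ Γ → θ i ψ = ⊥ ∨ (i, ψ) ∈ (D root).att) :
    ∀ χ ∈ Γ, ∀ x, h.game.sat (fun n x => Form.var n ∈ (D x).ty) χ x ↔ χ ∈ (D x).ty := by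
  classical
  set G := h.game with hG
  obtain ⟨r, hr⟩ := G.exists_rank
  have hrlt : ∀ i u v, G.End u → G.End v → (r i u < r i v ↔ (D u).lo i < (D v).lo i) := by
    intro i u v hu hv
    rw [← not_le, ← not_le, ← hr i v u hv hu]
    exact Iff.rfl
  -- lo and hi are correct
  have hlh : ∀ x, ∀ k, (∃ u, G.Rch G.best x u ∧ (D u).lo k = (D x).lo k) ∧
      (∀ u, G.Rch G.best x u → (D x).lo k ≤ (D u).lo k) ∧
      (∃ u, G.Rch G.best x u ∧ (D u).lo k = (D x).hi k) ∧
      (∀ u, G.Rch G.best x u → (D u).lo k ≤ (D x).hi k) := by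
    intro x
    induction x using G.wf.induction with
    | _ x ih =>
    by_cases hx : G.End x
    · have h1 := (h.leaf x hx).lohi
      have h2 : ∀ u, G.Rch G.best x u → u = x := by
        intro u hu
        rcases (G.rch_iff G.best (fun _ _ h => GameTree.best_move h) x u).mp hu with ⟨_, h⟩ | ⟨y, hy, _⟩
        · exact h
        · exact absurd (GameTree.best_move hy) (hx y)
      intro k
      refine ⟨⟨x, ⟨hx, ReflTransGen.refl⟩, rfl⟩, fun u hu => by rw [h2 u hu],
        ⟨x, ⟨hx, ReflTransGen.refl⟩, congrFun h1 k⟩, fun u hu => by rw [h2 u hu, h1]⟩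
    · have hx' : ∃ y, move x y := by
        unfold GameTree.End at hx
        push Not at hx
        exact hx
      have hL := h.node x hx'
      have hdom : ∀ i y z, G.move x y → G.move x z → (G.Dom r G.best i y z ↔ (D y).hi i < (D z).lo i) := by
        intro i y z hy hz
        obtain ⟨-, -, ⟨u, hu, hu'⟩, hu2⟩ := ih y hy i
        obtain ⟨⟨w, hw, hw'⟩, hw2, -, -⟩ := ih z hz i
        constructor
        · intro hd
          rw [← hu', ← hw']
          exact (hrlt i u w hu.1 hw.1).mp (hd u w hu hw)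
        · intro hd u' w' hu3 hw3
          rw [hrlt i u' w' hu3.1 hw3.1]
          exact lt_of_le_of_lt (hu2 u' hu3) (lt_of_lt_of_le hd (hw2 w' hw3))
      have hbst : ∀ y (hy : move x y),
          bst (turn x) (fun y : {y // move x y} => D y) ⟨y, hy⟩ ↔ G.best x y := by
        intro y hy
        rw [GameTree.best_iff hr]
        constructor
        · intro h
          refine ⟨hy, fun z hz hd => h ⟨z, hz⟩ ((hdom _ _ _ hy hz).mp hd)⟩
        · rintro ⟨_, h⟩ ⟨z, hz⟩ hd
          exact h z hz ((hdom _ _ _ hy hz).mpr hd)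
      have hsubR : ∀ y, G.best x y → ∀ u, G.Rch G.best y u → G.Rch G.best x u :=
        fun y hy u hu => ⟨hu.1, ReflTransGen.head hy hu.2⟩
      have hR : ∀ u, G.Rch G.best x u → ∃ y, G.best x y ∧ G.Rch G.best y u := by
        intro u hu
        rcases (G.rch_iff G.best (fun _ _ h => GameTree.best_move h) x u).mp hu with ⟨h, _⟩ | h
        · exact absurd h hx
        · exact h
      intro k
      refine ⟨?_, ?_, ?_, ?_⟩
      · obtain ⟨⟨y, hy⟩, h1, h2⟩ := hL.lo1 k
        obtain ⟨⟨u, hu, hu'⟩, -⟩ := ih y hy k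
        exact ⟨u, hsubR y ((hbst y hy).mp h1) u hu, hu'.trans h2⟩
      · intro u hu
        obtain ⟨y, hy, huy⟩ := hR u hu
        have hy' := GameTree.best_move hy
        exact (hL.lo2 k ⟨y, hy'⟩ ((hbst y hy').mpr hy)).trans ((ih y hy' k).2.1 u huy)
      · obtain ⟨⟨y, hy⟩, h1, h2⟩ := hL.hi1 k
        obtain ⟨-, -, ⟨u, hu, hu'⟩, -⟩ := ih y hy k
        exact ⟨u, hsubR y ((hbst y hy).mp h1) u hu, hu'.trans h2⟩
      · intro u hu
        obtain ⟨y, hy, huy⟩ := hR u hu
        have hy' := GameTree.best_move hy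
        exact ((ih y hy' k).2.2.2 u huy).trans (hL.hi2 k ⟨y, hy'⟩ ((hbst y hy').mpr hy))
  have hbst : ∀ x y (hy : move x y),
      bst (turn x) (fun y : {y // move x y} => D y) ⟨y, hy⟩ ↔ G.best x y := by
    intro x y hy
    have hdom : ∀ i y z, (G.Dom r G.best i y z ↔ (D y).hi i < (D z).lo i) := by
      intro i y z
      obtain ⟨-, -, ⟨u, hu, hu'⟩, hu2⟩ := hlh y i
      obtain ⟨⟨w, hw, hw'⟩, hw2, -, -⟩ := hlh z i
      constructor
      · intro hd
        rw [← hu', ← hw']
        exact (hrlt i u w hu.1 hw.1).mp (hd u w hu hw)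
      · intro hd u' w' hu3 hw3
        rw [hrlt i u' w' hu3.1 hw3.1]
        exact lt_of_le_of_lt (hu2 u' hu3) (lt_of_lt_of_le hd (hw2 w' hw3))
    rw [GameTree.best_iff hr]
    constructor
    · intro h
      refine ⟨hy, fun z hz hd => h ⟨z, hz⟩ ((hdom _ _ _).mp hd)⟩
    · rintro ⟨_, h⟩ ⟨z, hz⟩ hd
      exact h z hz ((hdom _ _ _).mpr hd)
  -- attained pairs come from end nodes
  have hatt : ∀ x, ∀ p ∈ (D x).att, ∃ w, G.End w ∧ p ∈ (D w).att := by
    intro x
    induction x using G.wf.induction with
    | _ x ih =>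
    intro p hp
    by_cases hx : G.End x
    · exact ⟨x, hx, hp⟩
    · have hx' : ∃ y, move x y := by
        unfold GameTree.End at hx
        push Not at hx
        exact hx
      obtain ⟨⟨y, hy⟩, h1⟩ := ((h.node x hx').att p).mp hp
      exact ih y hy p h1
  have hne : ∀ x, ¬ G.End x → ∃ y, move x y := by
    intro x hx
    unfold GameTree.End at hx
    push Not at hx
    exact hx
  intro χ
  induction χ with
  | var n => exact fun _ x => Iff.rfl
  | fin =>
    intro hχ x
    by_cases hx : G.End x
    · have := (h.leaf x hx).tc _ hχ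
      exact ⟨fun _ => (show Form.fin ∈ (D x).ty ↔ True from this).mpr trivial, fun _ => hx⟩
    · have := (h.node x (hne x hx)).tc _ hχ
      exact ⟨fun h => absurd h hx, fun h => ((show Form.fin ∈ (D x).ty ↔ False from this).mp h).elim⟩
  | turn i =>
    intro hχ x
    by_cases hx : G.End x
    · have := (h.leaf x hx).tc _ hχ
      exact ⟨fun h => absurd hx h.1, fun h => ((show Form.turn i ∈ (D x).ty ↔ False from this).mp h).elim⟩
    · have := (h.node x (hne x hx)).tc _ hχ
      have h2 : Form.turn i ∈ (D x).ty ↔ turn x = i := this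
      exact ⟨fun h => h2.mpr h.2, fun h => ⟨hx, h2.mp h⟩⟩
  | neg ψ ih =>
    intro hχ x
    have h1 : Form.neg ψ ∈ (D x).ty ↔ ψ ∉ (D x).ty := by
      by_cases hx : G.End x
      · exact (h.leaf x hx).tc _ hχ
      · exact (h.node x (hne x hx)).tc _ hχ
    rw [h1, ← ih (hcl.neg ψ hχ) x]
    exact Iff.rfl
  | and ψ χ ih1 ih2 =>
    intro hχ x
    have h1 : Form.and ψ χ ∈ (D x).ty ↔ ψ ∈ (D x).ty ∧ χ ∈ (D x).ty := by
      by_cases hx : G.End x
      · exact (h.leaf x hx).tc _ hχ
      · exact (h.node x (hne x hx)).tc _ hχ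
    rw [h1, ← ih1 (hcl.and ψ χ hχ).1 x, ← ih2 (hcl.and ψ χ hχ).2 x]
    exact Iff.rfl
  | dia rr ψ ih =>
    intro hχ
    have hψ := hcl.dia _ _ hχ
    have ih' := ih hψ
    rcases rr with _ | i | _ | i | _ | _
    · intro x
      by_cases hx : G.End x
      · have h1 := (h.leaf x hx).tc _ hχ
        refine ⟨fun ⟨y, hy, _⟩ => absurd hy (hx y), fun h2 => ?_⟩
        obtain ⟨j, _⟩ := (show _ ↔ _ from h1).mp h2
        exact j.elim
      · have h1 := (h.node x (hne x hx)).tc _ hχ
        rw [show Form.dia .move ψ ∈ (D x).ty ↔ _ from h1]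
        constructor
        · rintro ⟨y, hy, hs⟩
          exact ⟨⟨y, hy⟩, (ih' y).mp hs⟩
        · rintro ⟨⟨y, hy⟩, hs⟩
          exact ⟨y, hy, (ih' y).mpr hs⟩
    · intro x
      by_cases hx : G.End x
      · have h1 := (h.leaf x hx).tc _ hχ
        refine ⟨fun ⟨y, hy, _⟩ => absurd hy.2 (hx y), fun h2 => ?_⟩
        exact ((show _ ↔ False ∧ _ from h1).mp h2).1.elim
      · have h1 := (h.node x (hne x hx)).tc _ hχ
        rw [show Form.dia (.moveOf i) ψ ∈ (D x).ty ↔ (turn x = i ∧ _) from h1]
        constructor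
        · rintro ⟨y, ⟨h2, hy⟩, hs⟩
          exact ⟨h2, ⟨y, hy⟩, (ih' y).mp hs⟩
        · rintro ⟨h2, ⟨y, hy⟩, hs⟩
          exact ⟨y, ⟨h2, hy⟩, (ih' y).mpr hs⟩
    · intro x
      induction x using G.wf.induction with
      | _ x ihx =>
      by_cases hx : G.End x
      · have h1 := (h.leaf x hx).tc _ hχ
        refine ⟨fun ⟨y, hy, _⟩ => ?_, fun h2 => ?_⟩
        · obtain ⟨z, hz, _⟩ := TransGen.head'_iff.mp (show TransGen G.move x y from hy)
          exact absurd hz (hx z)
        · obtain ⟨j, _⟩ := (show _ ↔ _ from h1).mp h2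
          exact j.elim
      · have h1 := (h.node x (hne x hx)).tc _ hχ
        rw [show Form.dia .movePlus ψ ∈ (D x).ty ↔ _ from h1]
        constructor
        · rintro ⟨y, hy, hs⟩
          obtain ⟨z, hz, hzy⟩ := TransGen.head'_iff.mp (show TransGen G.move x y from hy)
          refine ⟨⟨z, hz⟩, ?_⟩
          rcases (reflTransGen_iff_eq_or_transGen.mp hzy) with h3 | h3
          · subst h3
            exact Or.inl ((ih' _).mp hs)
          · exact Or.inr ((ihx z hz).mp ⟨y, h3, hs⟩)
        · rintro ⟨⟨z, hz⟩, hs | hs⟩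
          · exact ⟨z, TransGen.single hz, (ih' z).mpr hs⟩
          · obtain ⟨y, hy, hs'⟩ := (ihx z hz).mpr hs
            exact ⟨y, TransGen.head hz hy, hs'⟩
    · intro x
      by_cases hx : G.End x
      · have h1 := (h.leaf x hx).tc _ hχ
        rw [show Form.dia (.pref i) ψ ∈ (D x).ty ↔ _ from h1]
        constructor
        · rintro ⟨y, ⟨_, hy, hxy⟩, hs⟩
          refine le_trans ?_ ((h.leaf y hy).bd i ψ hχ ((ih' y).mp hs))
          rw [WithBot.coe_le_coe]
          exact hxy
        · intro h2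
          replace h2 : (((D x).lo i : ℚ) : WithBot ℚ) ≤ θ i ψ := h2
          rcases hθ i ψ hχ with h3 | h3
          · rw [h3] at h2
            simp at h2
          · obtain ⟨w, hw, hw'⟩ := hatt root _ h3
            obtain ⟨_, h4, h5⟩ := ((h.leaf w hw).att i ψ).mp hw'
            rw [← h5, WithBot.coe_le_coe] at h2
            exact ⟨w, ⟨hx, hw, h2⟩, (ih' w).mpr h4⟩
      · have h1 := (h.node x (hne x hx)).tc _ hχ
        rw [show Form.dia (.pref i) ψ ∈ (D x).ty ↔ False from h1]
        exact ⟨fun ⟨y, h2, _⟩ => hx h2.1, fun h2 => h2.elim⟩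
    · intro x
      by_cases hx : G.End x
      · have h1 := (h.leaf x hx).tc _ hχ
        refine ⟨fun ⟨y, hy, _⟩ => absurd (GameTree.best_move hy) (hx y), fun h2 => ?_⟩
        obtain ⟨j, _⟩ := (show _ ↔ _ from h1).mp h2
        exact j.elim
      · have h1 := (h.node x (hne x hx)).tc _ hχ
        rw [show Form.dia .best ψ ∈ (D x).ty ↔ _ from h1]
        constructor
        · rintro ⟨y, hy, hs⟩
          exact ⟨⟨y, GameTree.best_move hy⟩, (hbst x y _).mpr hy, (ih' y).mp hs⟩
        · rintro ⟨⟨y, hy⟩, h2, hs⟩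
          exact ⟨y, (hbst x y hy).mp h2, (ih' y).mpr hs⟩
    · intro x
      induction x using G.wf.induction with
      | _ x ihx =>
      by_cases hx : G.End x
      · have h1 := (h.leaf x hx).tc _ hχ
        rw [show Form.dia .bestStar ψ ∈ (D x).ty ↔ _ from h1]
        constructor
        · rintro ⟨y, hy, hs⟩
          rcases ReflTransGen.cases_head (show ReflTransGen G.best x y from hy) with h2 | ⟨z, hz, _⟩
          · subst h2
            exact Or.inl ((ih' _).mp hs)
          · exact absurd (GameTree.best_move hz) (hx z)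
        · rintro (h2 | ⟨j, _⟩)
          · exact ⟨x, ReflTransGen.refl, (ih' x).mpr h2⟩
          · exact j.elim
      · have h1 := (h.node x (hne x hx)).tc _ hχ
        rw [show Form.dia .bestStar ψ ∈ (D x).ty ↔ _ from h1]
        constructor
        · rintro ⟨y, hy, hs⟩
          rcases ReflTransGen.cases_head (show ReflTransGen G.best x y from hy) with h2 | ⟨z, hz, hzy⟩
          · subst h2
            exact Or.inl ((ih' _).mp hs)
          · exact Or.inr ⟨⟨z, GameTree.best_move hz⟩, (hbst x z _).mpr hz,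
              (ihx z (GameTree.best_move hz)).mp ⟨y, hzy, hs⟩⟩
        · rintro (h2 | ⟨⟨z, hz⟩, h2, h3⟩)
          · exact ⟨x, ReflTransGen.refl, (ih' x).mpr h2⟩
          · obtain ⟨y, hy, hs'⟩ := (ihx z hz).mpr h3
            exact ⟨y, ReflTransGen.head ((hbst x z hz).mp h2) hy, hs'⟩

lemma sz_mono_left {b b' : ℕ} (h : b ≤ b') (n : ℕ) : sz b n ≤ sz b' n := by
  induction n with
  | zero => exact le_rfl
  | succ n ih => exact Nat.add_le_add_left (Nat.mul_le_mul h ih) _

lemma sz_mono_right {b : ℕ} (hb : 1 ≤ b) {n n' : ℕ} (h : n ≤ n') : sz b n ≤ sz b n' := by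
  refine monotone_nat_of_le_succ (f := sz b) (fun n => ?_) h
  show sz b n ≤ 1 + b * sz b n
  nlinarith [Nat.zero_le (sz b n), Nat.mul_le_mul_right (sz b n) hb]

lemma bound_mono (m : ℕ) {g g' : ℕ} (h : g ≤ g') : bound m g ≤ bound m g' := by
  unfold bound
  refine (sz_mono_left (b' := 1 + 2 * g' + 2 * m + m * g') ?_ _).trans (sz_mono_right (by omega) ?_)
  · have := Nat.mul_le_mul_left m h
    omega
  · gcongr <;> norm_num

/-- **Small model theorem.** -/
theorem small_model (φ : Form m) (h : ¬ Valid φ) :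
    ∃ (V : Type) (_ : Finite V) (G : GameTree m V) (v : ℕ → V → Prop) (x : V),
      Nat.card V ≤ bound m (φ.len + 2) ∧ ¬ G.sat v φ x := by
  classical
  unfold Valid at h
  push Not at h
  obtain ⟨V, hV, G, v, x, hx⟩ := h
  let Γ : Set (Form m) := subf (.dia .movePlus (.neg φ))
  have hΓ : Γ.Finite := subf_finite _
  have hcl : Cl Γ := subf_cl _
  obtain ⟨θ, D, hD, hty, hθ⟩ := model_der G v Γ hcl
  obtain ⟨n, hn, hall⟩ := exists_closed (θ := θ) hΓ hcl
  obtain ⟨V', hV', root, move, turn, D', rk, hpre, hroot, hcard⟩ :=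
    build (G.turn G.root) _ n (D G.root) (hall _ (hD G.root))
  have hsat := pre_sat hpre hcl (by rw [hroot]; exact hθ)
  have m1 : Form.dia .movePlus (.neg φ) ∈ Γ := self_mem_subf _
  have m2 : Form.neg φ ∈ Γ := Or.inr (self_mem_subf _)
  have hroot' : Form.neg φ ∈ (D' root).ty ∨ Form.dia .movePlus (.neg φ) ∈ (D' root).ty := by
    rw [hroot, hty]
    rcases reflTransGen_iff_eq_or_transGen.mp (G.reachable x) with h1 | h1
    · subst h1
      exact Or.inl ⟨m2, hx⟩
    · exact Or.inr ⟨m1, x, h1, hx⟩
  refine ⟨V', hV', hpre.game, fun n x => Form.var n ∈ (D' x).ty, ?_⟩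
  have hc : Nat.card V' ≤ bound m (φ.len + 2) := by
    refine hcard.trans ?_
    have h1 : Γ.ncard ≤ φ.len + 2 := subf_ncard _
    refine le_trans ?_ (bound_mono m h1)
    unfold bound
    refine sz_mono_right (by omega) ?_
    rw [← card_prf hΓ]
    exact hn
  rcases hroot' with h1 | h1
  · exact ⟨root, hc, (hsat _ m2 root).mpr h1⟩
  · obtain ⟨y, _, hy⟩ := (hsat _ m1 root).mpr h1
    exact ⟨y, hc, hy⟩

end Pool.Agent.H181R4.GL
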