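import Pool.Agent.H181R4.GL.Compl

/-!
Calculi, and the finite check of validity.
-/

set_option autoImplicit false

namespace Pool.Agent.H181R4.GL

open Relation

variable {m : ℕ}

lemma sat_subst {V : Type} (G : GameTree m V) (v : ℕ → V → Prop) (s : ℕ → Form m) (φ : Form m) :
    ∀ x, G.sat v (φ.subst s) x ↔ G.sat (fun n y => G.sat v (s n) y) φ x := by
  induction φ with
  | var n => exact fun x => Iff.rfl
  | fin => exact fun x => Iff.rfl
  | turn i => exact fun x => Iff.rfl
  | neg φ ih => exact fun x => not_congr (ih x)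
  | and φ ψ ih ih' => exact fun x => and_congr (ih x) (ih' x)
  | dia r φ ih => exact fun x => exists_congr fun y => and_congr_right fun _ => ih y

lemma thm_valid {Ax : Form m → Prop} (h : ∀ φ, Ax φ → Valid φ) {φ : Form m} (hφ : Thm Ax φ) :
    Valid φ := by
  induction hφ with
  | ax h1 => exact h _ h1
  | mp _ _ ih1 ih2 =>
    intro V _ G v x
    have h1 := ih1 V G v x
    have h2 := ih2 V G v x
    by_contra h3
    exact h1 ⟨h2, h3⟩
  | nec r _ ih =>
    intro V _ G v x
    rintro ⟨y, _, hy⟩
    exact hy (ih V G v y)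
  | subst s _ ih =>
    intro V _ G v x
    rw [sat_subst]
    exact ih V G _ x

/-- Validity is truth in the small game trees. -/
theorem valid_iff_small (φ : Form m) : Valid φ ↔ SmallValid φ := by
  constructor
  · intro h N _ G v x
    exact h _ G v x
  · intro h
    by_contra hv
    obtain ⟨V, hV, G, v, x, hc, hx⟩ := small_model φ hv
    let e : V → ℕ := fun x => (Finite.equivFin V x : ℕ)
    have he : Function.Injective e := fun x y hxy => (Finite.equivFin V).injective (Fin.ext hxy)
    have hr : ∀ a, a < Nat.card V ↔ ∃ x, e x = a := fun a =>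
      ⟨fun ha => ⟨(Finite.equivFin V).symm ⟨a, ha⟩, by simp [e]⟩, fun ⟨x, hx⟩ => by
        rw [← hx]
        exact (Finite.equivFin V x).2⟩
    obtain ⟨ψ, hψ, G', v', x', hx'⟩ := sound' (complete he hr hx)
    obtain rfl := Form.code_inj hψ
    exact hx' (h _ hc G' v' x')

/-- The theorems of the calculus are exactly the valid formulas. -/
theorem thm_iff (φ : Form m) : Thm SmallValid φ ↔ Valid φ :=
  ⟨fun h => thm_valid (fun ψ hψ => (valid_iff_small ψ).mpr hψ) h,
    fun h => .ax ((valid_iff_small φ).mp h)⟩

theorem smallValid_primrec (m : ℕ) :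
    PrimrecPred (fun n : ℕ => ∃ φ : Form m, φ.code = n ∧ SmallValid φ) :=
  (valid_primrec m).of_eq fun n => exists_congr fun φ => and_congr_right fun _ => valid_iff_small φ

end Pool.Agent.H181R4.GL
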