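import Pool.Agent.H181R4.GL.Build

/-!
The arithmetical check: codes of formulas, tables coded by the binary digits of a number, and a
primitive recursive predicate which says that a number codes a game tree with a truth table.
-/

set_option autoImplicit false

namespace Pool.Agent.H181R4.GL

open Relation

lemma Md.code_inj {m : ℕ} {r s : Md m} (h : r.code = s.code) : r = s := by
  cases r <;> cases s <;> simp only [Md.code] at h <;> first | rfl | omega | skip
  · congr 1
    exact Fin.ext (by omega)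
  · congr 1
    exact Fin.ext (by omega)

lemma Form.code_inj {m : ℕ} {φ ψ : Form m} (h : φ.code = ψ.code) : φ = ψ := by
  induction φ generalizing ψ with
  | var n =>
    cases ψ <;> simp only [Form.code, Nat.pair_eq_pair] at h <;>
      first | exact absurd h.1 (by decide) | skip
    rw [h.2]
  | fin =>
    cases ψ <;> simp only [Form.code, Nat.pair_eq_pair] at h <;>
      first | exact absurd h.1 (by decide) | skip
    rfl
  | turn i =>
    cases ψ <;> simp only [Form.code, Nat.pair_eq_pair] at h <;>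
      first | exact absurd h.1 (by decide) | skip
    rw [Fin.ext h.2]
  | neg φ ih =>
    cases ψ <;> simp only [Form.code, Nat.pair_eq_pair] at h <;>
      first | exact absurd h.1 (by decide) | skip
    rw [ih h.2]
  | and φ φ' ih ih' =>
    cases ψ <;> simp only [Form.code, Nat.pair_eq_pair] at h <;>
      first | exact absurd h.1 (by decide) | skip
    rw [ih h.2.1, ih' h.2.2]
  | dia r φ ih =>
    cases ψ <;> simp only [Form.code, Nat.pair_eq_pair] at h <;>
      first | exact absurd h.1 (by decide) | skip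
    rw [Md.code_inj h.2.1, ih h.2.2]

lemma Form.len_le {m : ℕ} (φ : Form m) : φ.len ≤ φ.code + 1 := by
  induction φ with
  | var n => simp [Form.len]
  | fin => simp [Form.len]
  | turn i => simp [Form.len]
  | neg φ ih =>
    have := Nat.add_le_pair 3 φ.code
    simp only [Form.len, Form.code]
    omega
  | and φ ψ ih ih' =>
    have h1 := Nat.add_le_pair φ.code ψ.code
    have h2 := Nat.add_le_pair 4 (Nat.pair φ.code ψ.code)
    simp only [Form.len, Form.code]
    omega
  | dia r φ ih =>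
    have h1 := Nat.add_le_pair r.code φ.code
    have h2 := Nat.add_le_pair 5 (Nat.pair r.code φ.code)
    simp only [Form.len, Form.code]
    omega

/-- Reading a ternary relation off the binary digits of `c`. -/
def bt (c t x y : ℕ) : Prop := (c / 2 ^ (Nat.pair t (Nat.pair x y))) % 2 = 1

section Check

variable (m : ℕ) (T : ℕ → ℕ → ℕ → Prop) (n N r : ℕ)

/-- `T 6 q 0` says that `q` is the code of a formula. -/
def WfC : Prop :=
  ∀ q < n + 1, (T 6 q 0 ↔
    ((∃ k < n + 1, q = Nat.pair 0 k) ∨ q = Nat.pair 1 0 ∨ (∃ i < m, q = Nat.pair 2 i) ∨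
    (∃ k < n + 1, T 6 k 0 ∧ q = Nat.pair 3 k) ∨
    (∃ k < n + 1, ∃ l < n + 1, T 6 k 0 ∧ T 6 l 0 ∧ q = Nat.pair 4 (Nat.pair k l)) ∨
    (∃ k < 4 + 2 * m, ∃ l < n + 1, T 6 l 0 ∧ q = Nat.pair 5 (Nat.pair k l))))

/-- `x` is an end node -/
def EndC (x : ℕ) : Prop := ∀ y < N, ¬ T 0 x y

/-- tree and closure conditions -/
def TreeC : Prop :=
  (∀ x < N, ¬ T 0 x r) ∧
  (∀ x < N, ∀ y < N, ∀ z < N, T 0 x z → T 0 y z → x = y) ∧
  (∀ x < N, x = r ∨ T 3 r x) ∧
  (∀ x < N, ∀ z < N, (T 3 x z ↔ ∃ y < N, T 0 x y ∧ (y = z ∨ T 3 y z))) ∧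
  (∀ x < N, ∀ y < N, ∀ z < N, T 3 x y → T 3 y z → T 3 x z) ∧
  (∀ x < N, ¬ T 3 x x)

/-- turn labels -/
def TurnC : Prop := ∀ x < N, ∃ i < m, T 4 x i ∧ ∀ j < m, T 4 x j → j = i

/-- preferences -/
def PrefC : Prop := ∀ i < m,
  (∀ x < N, EndC T N x → T (7 + i) x x) ∧
  (∀ x < N, ∀ y < N, ∀ z < N, EndC T N x → EndC T N y → EndC T N z →
    T (7 + i) x y → T (7 + i) y z → T (7 + i) x z) ∧
  (∀ x < N, ∀ y < N, EndC T N x → EndC T N y → (T (7 + i) x y ∨ T (7 + i) y x))

/-- not dominated -/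
def NdC (x y z : ℕ) : Prop :=
  ∃ u < N, ∃ v < N, EndC T N u ∧ EndC T N v ∧ T 2 y u ∧ T 2 z v ∧
    ∃ i < m, T 4 x i ∧ ¬ (T (7 + i) u v ∧ ¬ T (7 + i) v u)

/-- best moves -/
def BestC : Prop :=
  (∀ x < N, ∀ y < N, (T 1 x y ↔ (T 0 x y ∧ ∀ z < N, T 0 x z → NdC m T N x y z))) ∧
  (∀ x < N, ∀ y < N, (T 2 x y ↔ (x = y ∨ ∃ z < N, T 1 x z ∧ T 2 z y)))

/-- accessibility -/
def RelC (k x y : ℕ) : Prop :=
  (k = 0 ∧ T 0 x y) ∨ (k = 1 ∧ T 3 x y) ∨ (k = 2 ∧ T 1 x y) ∨ (k = 3 ∧ T 2 x y) ∨
  (∃ i < m, k = 4 + 2 * i ∧ T 4 x i ∧ T 0 x y) ∨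
  (∃ i < m, k = 5 + 2 * i ∧ EndC T N x ∧ EndC T N y ∧ T (7 + i) x y)

/-- truth conditions -/
def TrC : Prop :=
  (Nat.pair 1 0 < n + 1 → ∀ x < N, (T 5 (Nat.pair 1 0) x ↔ EndC T N x)) ∧
  (∀ i < m, Nat.pair 2 i < n + 1 → ∀ x < N, (T 5 (Nat.pair 2 i) x ↔ (¬ EndC T N x ∧ T 4 x i))) ∧
  (∀ k < n + 1, T 6 k 0 → Nat.pair 3 k < n + 1 → ∀ x < N, (T 5 (Nat.pair 3 k) x ↔ ¬ T 5 k x)) ∧
  (∀ k < n + 1, ∀ l < n + 1, T 6 k 0 → T 6 l 0 → Nat.pair 4 (Nat.pair k l) < n + 1 →
    ∀ x < N, (T 5 (Nat.pair 4 (Nat.pair k l)) x ↔ (T 5 k x ∧ T 5 l x))) ∧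
  (∀ k < 4 + 2 * m, ∀ l < n + 1, T 6 l 0 → Nat.pair 5 (Nat.pair k l) < n + 1 →
    ∀ x < N, (T 5 (Nat.pair 5 (Nat.pair k l)) x ↔ ∃ y < N, RelC m T N k x y ∧ T 5 l y))

/-- the whole check -/
def Chk : Prop :=
  r < N ∧ WfC m T n ∧ T 6 n 0 ∧ TreeC T N r ∧ TurnC m T N ∧ PrefC m T N ∧ BestC m T N ∧
    TrC m T n N ∧ ∃ x < N, ¬ T 5 n x

end Check

/-! ### primitive recursiveness -/

section Prim

variable {α : Type} [Primcodable α]

lemma p_ball {b : α → ℕ} {p : α → ℕ → Prop} (hb : Primrec b)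
    (hp : PrimrecPred (fun q : α × ℕ => p q.1 q.2)) : PrimrecPred (fun a => ∀ x < b a, p a x) := by
  have h1 : PrimrecRel (fun (L : List ℕ) (a : α) => ∀ x ∈ L, p a x) := by
    refine PrimrecRel.forall_mem_list (R := fun x a => p a x) ?_
    exact hp.comp (Primrec.snd.pair Primrec.fst)
  exact (h1.comp (Primrec.list_range.comp hb) Primrec.id).of_eq (by simp)

lemma p_bex {b : α → ℕ} {p : α → ℕ → Prop} (hb : Primrec b)
    (hp : PrimrecPred (fun q : α × ℕ => p q.1 q.2)) : PrimrecPred (fun a => ∃ x < b a, p a x) := by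
  have h1 : PrimrecRel (fun (L : List ℕ) (a : α) => ∃ x ∈ L, p a x) := by
    refine PrimrecRel.exists_mem_list (R := fun x a => p a x) ?_
    exact hp.comp (Primrec.snd.pair Primrec.fst)
  exact (h1.comp (Primrec.list_range.comp hb) Primrec.id).of_eq (by simp)

lemma p_imp {p q : α → Prop} (hp : PrimrecPred p) (hq : PrimrecPred q) :
    PrimrecPred (fun a => p a → q a) :=
  (hp.not.or hq).of_eq fun a => by tauto

lemma p_iff {p q : α → Prop} (hp : PrimrecPred p) (hq : PrimrecPred q) :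
    PrimrecPred (fun a => (p a ↔ q a)) :=
  ((hp.and hq).or (hp.not.and hq.not)).of_eq fun a => by tauto

lemma p_pow {f g : α → ℕ} (hf : Primrec f) (hg : Primrec g) : Primrec (fun a => f a ^ g a) :=
  (Primrec₂.unpaired'.1 Nat.Primrec.pow : Primrec₂ ((· ^ ·) : ℕ → ℕ → ℕ)).comp hf hg

lemma p_eq {f g : α → ℕ} (hf : Primrec f) (hg : Primrec g) : PrimrecPred (fun a => f a = g a) :=
  Primrec.eq.comp hf hg

lemma p_lt {f g : α → ℕ} (hf : Primrec f) (hg : Primrec g) : PrimrecPred (fun a => f a < g a) :=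
  Primrec.nat_lt.comp hf hg

lemma p_add {f g : α → ℕ} (hf : Primrec f) (hg : Primrec g) : Primrec (fun a => f a + g a) :=
  Primrec.nat_add.comp hf hg

lemma p_mul {f g : α → ℕ} (hf : Primrec f) (hg : Primrec g) : Primrec (fun a => f a * g a) :=
  Primrec.nat_mul.comp hf hg

lemma p_pair {f g : α → ℕ} (hf : Primrec f) (hg : Primrec g) :
    Primrec (fun a => Nat.pair (f a) (g a)) :=
  Primrec₂.natPair.comp hf hg

lemma p_bt {c t x y : α → ℕ} (hc : Primrec c) (ht : Primrec t) (hx : Primrec x) (hy : Primrec y) :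
    PrimrecPred (fun a => bt (c a) (t a) (x a) (y a)) := by
  unfold bt
  exact p_eq (Primrec.nat_mod.comp (Primrec.nat_div.comp hc
    (p_pow (Primrec.const 2) (p_pair ht (p_pair hx hy)))) (Primrec.const 2)) (Primrec.const 1)

attribute [local irreducible] Primrec PrimrecPred Nat.pair bt

variable {m : ℕ} {c n N r x y z k : α → ℕ}

lemma prim_wfC (hc : Primrec c) (hn : Primrec n) :
    PrimrecPred (fun a => WfC m (bt (c a)) (n a)) := by
  unfold WfC
  repeat' (first
    | refine p_ball ?_ ?_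
    | refine p_bex ?_ ?_
    | refine PrimrecPred.not ?_
    | refine PrimrecPred.and ?_ ?_
    | refine PrimrecPred.or ?_ ?_
    | refine p_iff ?_ ?_
    | refine p_imp ?_ ?_
    | refine p_bt ?_ ?_ ?_ ?_
    | refine p_eq ?_ ?_
    | refine p_lt ?_ ?_)
  repeat' (first
    | assumption
    | exact Primrec.const _
    | exact Primrec.id
    | refine p_pair ?_ ?_
    | refine p_add ?_ ?_
    | refine p_mul ?_ ?_
    | refine p_pow ?_ ?_
    | refine Primrec.fst.comp ?_
    | refine Primrec.snd.comp ?_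
    | refine Primrec.comp (by assumption) ?_)

lemma prim_treeC (hc : Primrec c) (hN : Primrec N) (hr : Primrec r) :
    PrimrecPred (fun a => TreeC (bt (c a)) (N a) (r a)) := by
  unfold TreeC
  repeat' (first
    | refine p_ball ?_ ?_
    | refine p_bex ?_ ?_
    | refine PrimrecPred.not ?_
    | refine PrimrecPred.and ?_ ?_
    | refine PrimrecPred.or ?_ ?_
    | refine p_iff ?_ ?_
    | refine p_imp ?_ ?_
    | refine p_bt ?_ ?_ ?_ ?_
    | refine p_eq ?_ ?_
    | refine p_lt ?_ ?_)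
  repeat' (first
    | assumption
    | exact Primrec.const _
    | exact Primrec.id
    | refine p_pair ?_ ?_
    | refine p_add ?_ ?_
    | refine p_mul ?_ ?_
    | refine p_pow ?_ ?_
    | refine Primrec.fst.comp ?_
    | refine Primrec.snd.comp ?_
    | refine Primrec.comp (by assumption) ?_)

lemma prim_turnC (hc : Primrec c) (hN : Primrec N) :
    PrimrecPred (fun a => TurnC m (bt (c a)) (N a)) := by
  unfold TurnC
  repeat' (first
    | refine p_ball ?_ ?_
    | refine p_bex ?_ ?_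
    | refine PrimrecPred.not ?_
    | refine PrimrecPred.and ?_ ?_
    | refine PrimrecPred.or ?_ ?_
    | refine p_iff ?_ ?_
    | refine p_imp ?_ ?_
    | refine p_bt ?_ ?_ ?_ ?_
    | refine p_eq ?_ ?_
    | refine p_lt ?_ ?_)
  repeat' (first
    | assumption
    | exact Primrec.const _
    | exact Primrec.id
    | refine p_pair ?_ ?_
    | refine p_add ?_ ?_
    | refine p_mul ?_ ?_
    | refine p_pow ?_ ?_
    | refine Primrec.fst.comp ?_
    | refine Primrec.snd.comp ?_
    | refine Primrec.comp (by assumption) ?_)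

lemma prim_prefC (hc : Primrec c) (hN : Primrec N) :
    PrimrecPred (fun a => PrefC m (bt (c a)) (N a)) := by
  unfold PrefC EndC
  repeat' (first
    | refine p_ball ?_ ?_
    | refine p_bex ?_ ?_
    | refine PrimrecPred.not ?_
    | refine PrimrecPred.and ?_ ?_
    | refine PrimrecPred.or ?_ ?_
    | refine p_iff ?_ ?_
    | refine p_imp ?_ ?_
    | refine p_bt ?_ ?_ ?_ ?_
    | refine p_eq ?_ ?_
    | refine p_lt ?_ ?_)
  repeat' (first
    | assumption
    | exact Primrec.const _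
    | exact Primrec.id
    | refine p_pair ?_ ?_
    | refine p_add ?_ ?_
    | refine p_mul ?_ ?_
    | refine p_pow ?_ ?_
    | refine Primrec.fst.comp ?_
    | refine Primrec.snd.comp ?_
    | refine Primrec.comp (by assumption) ?_)

lemma prim_bestC (hc : Primrec c) (hN : Primrec N) :
    PrimrecPred (fun a => BestC m (bt (c a)) (N a)) := by
  unfold BestC NdC EndC
  repeat' (first
    | refine p_ball ?_ ?_
    | refine p_bex ?_ ?_
    | refine PrimrecPred.not ?_
    | refine PrimrecPred.and ?_ ?_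
    | refine PrimrecPred.or ?_ ?_
    | refine p_iff ?_ ?_
    | refine p_imp ?_ ?_
    | refine p_bt ?_ ?_ ?_ ?_
    | refine p_eq ?_ ?_
    | refine p_lt ?_ ?_)
  repeat' (first
    | assumption
    | exact Primrec.const _
    | exact Primrec.id
    | refine p_pair ?_ ?_
    | refine p_add ?_ ?_
    | refine p_mul ?_ ?_
    | refine p_pow ?_ ?_
    | refine Primrec.fst.comp ?_
    | refine Primrec.snd.comp ?_
    | refine Primrec.comp (by assumption) ?_)

lemma prim_trC (hc : Primrec c) (hn : Primrec n) (hN : Primrec N) :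
    PrimrecPred (fun a => TrC m (bt (c a)) (n a) (N a)) := by
  unfold TrC RelC EndC
  repeat' (first
    | refine p_ball ?_ ?_
    | refine p_bex ?_ ?_
    | refine PrimrecPred.not ?_
    | refine PrimrecPred.and ?_ ?_
    | refine PrimrecPred.or ?_ ?_
    | refine p_iff ?_ ?_
    | refine p_imp ?_ ?_
    | refine p_bt ?_ ?_ ?_ ?_
    | refine p_eq ?_ ?_
    | refine p_lt ?_ ?_)
  repeat' (first
    | assumption
    | exact Primrec.const _
    | exact Primrec.id
    | refine p_pair ?_ ?_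
    | refine p_add ?_ ?_
    | refine p_mul ?_ ?_
    | refine p_pow ?_ ?_
    | refine Primrec.fst.comp ?_
    | refine Primrec.snd.comp ?_
    | refine Primrec.comp (by assumption) ?_)

lemma prim_chk (hc : Primrec c) (hn : Primrec n) (hN : Primrec N) (hr : Primrec r) :
    PrimrecPred (fun a => Chk m (bt (c a)) (n a) (N a) (r a)) := by
  unfold Chk
  refine (p_lt hr hN).and <| (prim_wfC hc hn).and <| (p_bt hc ?_ hn ?_).and <|
    (prim_treeC hc hN hr).and <| (prim_turnC hc hN).and <| (prim_prefC hc hN).and <|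
    (prim_bestC hc hN).and <| (prim_trC hc hn hN).and ?_
  · exact Primrec.const _
  · exact Primrec.const _
  · exact p_bex hN (PrimrecPred.not (p_bt (Primrec.comp hc Primrec.fst) (Primrec.const 5)
      (Primrec.comp hn Primrec.fst) Primrec.snd))

lemma prim_sz {b k : α → ℕ} (hb : Primrec b) (hk : Primrec k) : Primrec (fun a => sz (b a) (k a)) := by
  have h1 : Primrec₂ (fun (b k : ℕ) => sz b k) := by
    refine (Primrec.nat_rec (f := fun _ : ℕ => 1) (g := fun b (p : ℕ × ℕ) => 1 + b * p.2)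
      (Primrec.const 1) ?_).of_eq ?_
    · exact p_add (Primrec.const 1) (p_mul Primrec.fst (Primrec.snd.comp Primrec.snd))
    · intro b k
      induction k with
      | zero => rfl
      | succ k ih => rw [sz, ← ih]
  exact h1.comp hb hk

lemma prim_bound (m : ℕ) {g : α → ℕ} (hg : Primrec g) : Primrec (fun a => bound m (g a)) := by
  unfold bound
  refine prim_sz ?_ ?_
  repeat' (first
    | assumption
    | exact Primrec.const _
    | exact Primrec.id
    | refine p_pair ?_ ?_
    | refine p_add ?_ ?_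
    | refine p_mul ?_ ?_
    | refine p_pow ?_ ?_
    | refine Primrec.fst.comp ?_
    | refine Primrec.snd.comp ?_
    | refine Primrec.comp (by assumption) ?_)

end Prim

end Pool.Agent.H181R4.GL
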