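import Pool.Agent.H181R4.GL.Der

/-! Bounded depth and branching suffice; subformulas. -/

set_option autoImplicit false

namespace Pool.Agent.H181R4.GL

open Relation

variable {m : ℕ}

/-- Closure under immediate subformulas. -/
structure Cl (Γ : Set (Form m)) : Prop where
  neg : ∀ ψ, Form.neg ψ ∈ Γ → ψ ∈ Γ
  and : ∀ ψ χ, Form.and ψ χ ∈ Γ → ψ ∈ Γ ∧ χ ∈ Γ
  dia : ∀ r ψ, Form.dia r ψ ∈ Γ → ψ ∈ Γ

/-- Subformulas. -/
def subf : Form m → Set (Form m)
  | .var n => {.var n}
  | .fin => {.fin}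
  | .turn i => {.turn i}
  | .neg φ => insert (.neg φ) (subf φ)
  | .and φ ψ => insert (.and φ ψ) (subf φ ∪ subf ψ)
  | .dia r φ => insert (.dia r φ) (subf φ)

lemma self_mem_subf (φ : Form m) : φ ∈ subf φ := by
  cases φ <;> simp [subf]

lemma subf_finite (φ : Form m) : (subf φ).Finite := by
  induction φ with
  | var n => exact Set.finite_singleton _
  | fin => exact Set.finite_singleton _
  | turn i => exact Set.finite_singleton _
  | neg φ ih => exact ih.insert _
  | and φ ψ ih1 ih2 => exact (ih1.union ih2).insert _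
  | dia r φ ih => exact ih.insert _

lemma subf_ncard (φ : Form m) : (subf φ).ncard ≤ φ.len := by
  induction φ with
  | var n => simp [subf, Form.len]
  | fin => simp [subf, Form.len]
  | turn i => simp [subf, Form.len]
  | neg φ ih =>
    refine (Set.ncard_insert_le _ _).trans ?_
    simp only [Form.len]
    omega
  | and φ ψ ih1 ih2 =>
    refine (Set.ncard_insert_le _ _).trans ?_
    have := Set.ncard_union_le (subf φ) (subf ψ)
    simp only [Form.len]
    omega
  | dia r φ ih =>
    refine (Set.ncard_insert_le _ _).trans ?_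
    simp only [Form.len]
    omega

lemma subf_trans {φ χ : Form m} (h : χ ∈ subf φ) : subf χ ⊆ subf φ := by
  induction φ with
  | var n => rw [Set.mem_singleton_iff.mp h]
  | fin => rw [Set.mem_singleton_iff.mp h]
  | turn i => rw [Set.mem_singleton_iff.mp h]
  | neg φ ih =>
    rcases h with rfl | h
    · exact subset_rfl
    · exact (ih h).trans (Set.subset_insert _ _)
  | and φ ψ ih1 ih2 =>
    rcases h with rfl | h | h
    · exact subset_rfl
    · exact (ih1 h).trans (Set.subset_union_left.trans (Set.subset_insert _ _))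
    · exact (ih2 h).trans (Set.subset_union_right.trans (Set.subset_insert _ _))
  | dia r φ ih =>
    rcases h with rfl | h
    · exact subset_rfl
    · exact (ih h).trans (Set.subset_insert _ _)

lemma subf_cl (φ : Form m) : Cl (subf φ) where
  neg ψ h := subf_trans h (Or.inr (self_mem_subf ψ))
  and ψ χ h := ⟨subf_trans h (Or.inr (Or.inl (self_mem_subf ψ))),
    subf_trans h (Or.inr (Or.inr (self_mem_subf χ)))⟩
  dia r ψ h := subf_trans h (Or.inr (self_mem_subf ψ))

/-- The type of profiles. -/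
abbrev Prf (m : ℕ) (Γ : Set (Form m)) : Type :=
  (Γ → Prop) × (Fin m → Γ → Prop) × (Fin m → Γ → Ordering × Ordering) × (Fin m → Ordering)

lemma card_prf {Γ : Set (Form m)} (hΓ : Γ.Finite) :
    Nat.card (Prf m Γ) = 2 ^ Γ.ncard * (2 ^ Γ.ncard) ^ m * (9 ^ Γ.ncard) ^ m * 3 ^ m := by
  haveI : Finite Γ := hΓ
  have h1 : Nat.card Prop = 2 := by
    rw [Nat.card_eq_fintype_card, Fintype.card_prop]
  have h2 : Nat.card Ordering = 3 := by
    rw [Nat.card_eq_fintype_card]
    rfl
  have h3 : Nat.card Γ = Γ.ncard := rfl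
  simp only [Prf, Nat.card_prod, Nat.card_fun, h1, h2, h3, Nat.card_fin]
  ring

variable {Γ : Set (Form m)} {θ : Fin m → Form m → WithBot ℚ}

/-- All derivable data are derivable with bounded depth and branching. -/
theorem exists_closed (hΓ : Γ.Finite) (hcl : Cl Γ) :
    ∃ n ≤ Nat.card (Prf m Γ), ∀ e, Der Γ θ e →
      DerB Γ θ (1 + 2 * Γ.ncard + 2 * m + m * Γ.ncard) n e := by
  classical
  haveI : Finite Γ := hΓ
  set b := 1 + 2 * Γ.ncard + 2 * m + m * Γ.ncard with hb
  have hclo : ∀ (j : Fin m) ψ, Form.dia (.pref j) ψ ∈ Γ → ψ ∈ Γ := fun j ψ h => hcl.dia _ _ h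
  let A : ℕ → Set (Prf m Γ) := fun n => {p | ∃ e, DerB Γ θ b n e ∧ prof Γ θ e = p}
  have hA : ∀ n, A n ⊆ A (n + 1) := by
    rintro n p ⟨e, he, hp⟩
    exact ⟨e, he.succ, hp⟩
  obtain ⟨n, hn, hn'⟩ : ∃ n ≤ Nat.card (Prf m Γ), A (n + 1) ⊆ A n := by
    by_contra hcon
    push Not at hcon
    have key : ∀ n, n ≤ Nat.card (Prf m Γ) + 1 → n ≤ (A n).ncard := by
      intro n
      induction n with
      | zero => exact fun _ => Nat.zero_le _
      | succ n ih =>
        intro h1
        have h2 := ih (by omega)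
        have h3 : A n ⊂ A (n + 1) := ⟨hA n, hcon n (by omega)⟩
        have h4 := Set.ncard_lt_ncard h3 (Set.toFinite _)
        omega
    have h1 := key _ le_rfl
    have h2 : (A (Nat.card (Prf m Γ) + 1)).ncard ≤ Nat.card (Prf m Γ) := by
      rw [← Set.ncard_univ]
      exact Set.ncard_le_ncard (Set.subset_univ _) (Set.toFinite _)
    omega
  refine ⟨n, hn, fun e he => ?_⟩
  induction he with
  | leaf e h => exact DerB.leaf h
  | node ι hι i d e hd h ih =>
    have hatt : ∀ p ∈ e.att, Form.dia (.pref p.1) p.2 ∈ Γ := (Der.node ι hι i d e hd h).att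
    obtain ⟨S, hS, hS'⟩ := h.reduce hΓ (fun j => (hd j).sub) hatt hclo
    have h1 : DerB Γ θ b (n + 1) e :=
      Or.inr ⟨S, inferInstance, i, fun j => d j, hS, fun j => ih j, hS'⟩
    obtain ⟨e', he', hp⟩ := hn' ⟨e, h1, rfl⟩
    obtain ⟨σ, hσ, hσ'⟩ := prof_map hΓ (Der.node ι hι i d e hd h) he'.der hclo hp
    rw [← hσ']
    exact he'.map hσ

end Pool.Agent.H181R4.GL
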