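import Pool.Agent.H181R4.GL.Sound

/-!
Completeness of the check and the decidability of validity.
-/

set_option autoImplicit false

namespace Pool.Agent.H181R4.GL

open Relation

variable {m : ℕ} {V : Type}

/-- The table of a model. -/
def tab (G : GameTree m V) (v : ℕ → V → Prop) (e : V → ℕ) (n : ℕ) : ℕ → ℕ → ℕ → Prop
  | 0, a, b => ∃ x y, e x = a ∧ e y = b ∧ G.move x y
  | 1, a, b => ∃ x y, e x = a ∧ e y = b ∧ G.best x y
  | 2, a, b => ∃ x y, e x = a ∧ e y = b ∧ ReflTransGen G.best x y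
  | 3, a, b => ∃ x y, e x = a ∧ e y = b ∧ TransGen G.move x y
  | 4, a, b => ∃ x, e x = a ∧ (G.turn x : ℕ) = b
  | 5, a, b => ∃ (ψ : Form m) (x : V), ψ.code = a ∧ a < n + 1 ∧ e x = b ∧ G.sat v ψ x
  | 6, a, b => ∃ ψ : Form m, ψ.code = a ∧ a < n + 1 ∧ b = 0
  | t + 7, a, b => ∃ (i : Fin m) (x y : V), (i : ℕ) = t ∧ e x = a ∧ e y = b ∧ G.pref i x y

section

variable {G : GameTree m V} {v : ℕ → V → Prop} {e : V → ℕ} {n N : ℕ}

lemma tab_bdd (hN : ∀ a, a < N ↔ ∃ x, e x = a) {M : ℕ} (h1 : N ≤ M) (h2 : n + 1 ≤ M)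
    (h3 : m + 7 ≤ M) (t a b : ℕ) (h : tab G v e n t a b) : t < M ∧ a < M ∧ b < M := by
  have hx : ∀ x, e x < M := fun x => lt_of_lt_of_le ((hN _).mpr ⟨x, rfl⟩) h1
  match t, h with
  | 0, ⟨x, y, h4, h5, _⟩ => exact ⟨by omega, h4 ▸ hx x, h5 ▸ hx y⟩
  | 1, ⟨x, y, h4, h5, _⟩ => exact ⟨by omega, h4 ▸ hx x, h5 ▸ hx y⟩
  | 2, ⟨x, y, h4, h5, _⟩ => exact ⟨by omega, h4 ▸ hx x, h5 ▸ hx y⟩
  | 3, ⟨x, y, h4, h5, _⟩ => exact ⟨by omega, h4 ▸ hx x, h5 ▸ hx y⟩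
  | 4, ⟨x, h4, h5⟩ => exact ⟨by omega, h4 ▸ hx x, by have := (G.turn x).2; omega⟩
  | 5, ⟨ψ, x, _, h4, h5, _⟩ => exact ⟨by omega, by omega, h5 ▸ hx x⟩
  | 6, ⟨ψ, _, h4, h5⟩ => exact ⟨by omega, by omega, by omega⟩
  | t + 7, ⟨i, x, y, h4, h5, h6, _⟩ =>
    exact ⟨by have := i.2; omega, h5 ▸ hx x, h6 ▸ hx y⟩

variable (he : Function.Injective e)

include he

lemma tab0 (x y : V) : tab G v e n 0 (e x) (e y) ↔ G.move x y :=
  ⟨fun ⟨_, _, h1, h2, h3⟩ => he h1 ▸ he h2 ▸ h3, fun h => ⟨x, y, rfl, rfl, h⟩⟩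

lemma tab1 (x y : V) : tab G v e n 1 (e x) (e y) ↔ G.best x y :=
  ⟨fun ⟨_, _, h1, h2, h3⟩ => he h1 ▸ he h2 ▸ h3, fun h => ⟨x, y, rfl, rfl, h⟩⟩

lemma tab2 (x y : V) : tab G v e n 2 (e x) (e y) ↔ ReflTransGen G.best x y :=
  ⟨fun ⟨_, _, h1, h2, h3⟩ => he h1 ▸ he h2 ▸ h3, fun h => ⟨x, y, rfl, rfl, h⟩⟩

lemma tab3 (x y : V) : tab G v e n 3 (e x) (e y) ↔ TransGen G.move x y :=
  ⟨fun ⟨_, _, h1, h2, h3⟩ => he h1 ▸ he h2 ▸ h3, fun h => ⟨x, y, rfl, rfl, h⟩⟩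

lemma tab4 (x : V) (i : ℕ) : tab G v e n 4 (e x) i ↔ i = (G.turn x : ℕ) :=
  ⟨fun ⟨_, h1, h2⟩ => by rw [← he h1]; exact h2.symm, fun h => ⟨x, rfl, h.symm⟩⟩

lemma tab5 (ψ : Form m) (hψ : ψ.code < n + 1) (x : V) :
    tab G v e n 5 ψ.code (e x) ↔ G.sat v ψ x :=
  ⟨fun ⟨_, _, h1, _, h2, h3⟩ => by rw [← he h2, ← Form.code_inj h1]; exact h3,
    fun h => ⟨ψ, x, rfl, hψ, rfl, h⟩⟩

omit he in
lemma tab6 (q : ℕ) : tab G v e n 6 q 0 ↔ q < n + 1 ∧ ∃ ψ : Form m, ψ.code = q :=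
  ⟨fun ⟨ψ, h1, h2, _⟩ => ⟨h2, ψ, h1⟩, fun ⟨h, ψ, h1⟩ => ⟨ψ, h1, h, rfl⟩⟩

lemma tab7 (i : Fin m) (x y : V) : tab G v e n (7 + i) (e x) (e y) ↔ G.pref i x y := by
  rw [Nat.add_comm 7]
  exact ⟨fun ⟨_, _, _, h1, h2, h3, h4⟩ => by
    rw [← he h2, ← he h3, ← Fin.ext h1]
    exact h4, fun h => ⟨i, x, y, rfl, rfl, rfl, h⟩⟩

lemma tab_enc (hN : ∀ a, a < N ↔ ∃ x, e x = a) : Enc G e N (tab G v e n) :=
  ⟨he, hN, tab0 he, fun x i _ => tab4 he x i, tab7 he⟩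

end

lemma code_lt {r : Md m} : r.code < 4 + 2 * m := by
  cases r <;> simp only [Md.code] <;> omega

/-- the well-formedness table of the true codes -/
lemma wfC_of {T : ℕ → ℕ → ℕ → Prop} {n : ℕ}
    (h6 : ∀ q, T 6 q 0 ↔ q < n + 1 ∧ ∃ ψ : Form m, ψ.code = q) : WfC m T n := by
  intro q hq
  rw [h6]
  constructor
  · rintro ⟨_, ψ, rfl⟩
    cases ψ with
    | var k => exact Or.inl ⟨k, lt_of_le_of_lt (Nat.right_le_pair 0 k) hq, rfl⟩
    | fin => exact Or.inr (Or.inl rfl)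
    | turn i => exact Or.inr (Or.inr (Or.inl ⟨i, i.2, rfl⟩))
    | neg φ =>
      have h1 : φ.code < n + 1 := lt_of_le_of_lt (Nat.right_le_pair 3 φ.code) hq
      exact Or.inr (Or.inr (Or.inr (Or.inl ⟨_, h1, (h6 _).mpr ⟨h1, φ, rfl⟩, rfl⟩)))
    | and φ ψ =>
      have h0 : Nat.pair φ.code ψ.code < n + 1 := lt_of_le_of_lt (Nat.right_le_pair 4 _) hq
      have h1 : φ.code < n + 1 := lt_of_le_of_lt (Nat.left_le_pair _ _) h0
      have h2 : ψ.code < n + 1 := lt_of_le_of_lt (Nat.right_le_pair _ _) h0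
      exact Or.inr (Or.inr (Or.inr (Or.inr (Or.inl ⟨_, h1, _, h2, (h6 _).mpr ⟨h1, φ, rfl⟩,
        (h6 _).mpr ⟨h2, ψ, rfl⟩, rfl⟩))))
    | dia r φ =>
      have h0 : Nat.pair r.code φ.code < n + 1 := lt_of_le_of_lt (Nat.right_le_pair 5 _) hq
      have h1 : φ.code < n + 1 := lt_of_le_of_lt (Nat.right_le_pair _ _) h0
      exact Or.inr (Or.inr (Or.inr (Or.inr (Or.inr ⟨_, code_lt, _, h1,
        (h6 _).mpr ⟨h1, φ, rfl⟩, rfl⟩))))
  · rintro (⟨k, _, rfl⟩ | rfl | ⟨i, hi, rfl⟩ | ⟨k, hk, h1, rfl⟩ |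
      ⟨k, hk, l, hl, h1, h2, rfl⟩ | ⟨k, hk, l, hl, h1, rfl⟩)
    · exact ⟨hq, .var k, rfl⟩
    · exact ⟨hq, .fin, rfl⟩
    · exact ⟨hq, .turn ⟨i, hi⟩, rfl⟩
    · obtain ⟨_, φ, rfl⟩ := (h6 _).mp h1
      exact ⟨hq, .neg φ, rfl⟩
    · obtain ⟨_, φ, rfl⟩ := (h6 _).mp h1
      obtain ⟨_, ψ, rfl⟩ := (h6 _).mp h2
      exact ⟨hq, .and φ ψ, rfl⟩
    · obtain ⟨_, φ, rfl⟩ := (h6 _).mp h1
      obtain ⟨r, rfl⟩ := md_of_code hk
      exact ⟨hq, .dia r φ, rfl⟩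

/-- Completeness of the check. -/
theorem complete [Finite V] {G : GameTree m V} {v : ℕ → V → Prop} {e : V → ℕ} {N : ℕ}
    (he : Function.Injective e) (hN : ∀ a, a < N ↔ ∃ x, e x = a) {φ : Form m} {x0 : V}
    (hx0 : ¬ G.sat v φ x0) : Chk m (tab G v e φ.code) φ.code N (e G.root) := by
  have h : Enc G e N (tab G v e φ.code) := tab_enc he hN
  have t1 := tab1 (G := G) (v := v) (n := φ.code) he
  have t2 := tab2 (G := G) (v := v) (n := φ.code) he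
  have t3 := tab3 (G := G) (v := v) (n := φ.code) he
  have t6 := tab6 (G := G) (v := v) (n := φ.code) (e := e)
  obtain ⟨ρ, hρ⟩ := G.exists_rank
  refine ⟨(hN _).mpr ⟨_, rfl⟩, wfC_of t6, (t6 _).mpr ⟨by omega, φ, rfl⟩, ?_, ?_, ?_, ?_, ?_, ?_⟩
  · -- tree
    refine ⟨(h.all_iff _).mpr fun x => ?_, (h.all_iff _).mpr fun x => (h.all_iff _).mpr fun y =>
      (h.all_iff _).mpr fun z => ?_, (h.all_iff _).mpr fun x => ?_, (h.all_iff _).mpr fun x =>
      (h.all_iff _).mpr fun z => ?_, (h.all_iff _).mpr fun x => (h.all_iff _).mpr fun y =>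
      (h.all_iff _).mpr fun z => ?_, (h.all_iff _).mpr fun x => ?_⟩
    · rw [h.h0]
      exact G.root_no_parent x
    · rw [h.h0, h.h0]
      exact fun h1 h2 => congrArg e (G.parent_unique x y z h1 h2)
    · rw [t3]
      rcases reflTransGen_iff_eq_or_transGen.mp (G.reachable x) with h1 | h1
      · exact Or.inl (congrArg e h1)
      · exact Or.inr h1
    · rw [t3, h.ex_iff, TransGen.head'_iff]
      refine exists_congr fun y => ?_
      rw [h.h0, t3, reflTransGen_iff_eq_or_transGen, he.eq_iff, eq_comm]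
    · rw [t3, t3, t3]
      exact fun h1 h2 => h1.trans h2
    · rw [t3]
      exact G.acyclic x
  · -- turn
    refine (h.all_iff _).mpr fun x => ⟨G.turn x, (G.turn x).2, ?_, fun j hj h1 => ?_⟩
    · exact (h.h4 x _ (G.turn x).2).mpr rfl
    · exact (h.h4 x j hj).mp h1
  · -- preferences
    intro i hi
    have h7 := fun x y => h.h7 ⟨i, hi⟩ x y
    simp only at h7
    refine ⟨(h.all_iff _).mpr fun x => ?_, (h.all_iff _).mpr fun x => (h.all_iff _).mpr fun y =>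
      (h.all_iff _).mpr fun z => ?_, (h.all_iff _).mpr fun x => (h.all_iff _).mpr fun y => ?_⟩
    · rw [h.end_iff, h7]
      exact G.pref_refl _ x
    · rw [h.end_iff, h.end_iff, h.end_iff, h7, h7, h7]
      exact G.pref_trans _ x y z
    · rw [h.end_iff, h.end_iff, h7, h7]
      exact G.pref_total _ x y
  · -- best
    refine ⟨(h.all_iff _).mpr fun x => (h.all_iff _).mpr fun y => ?_,
      (h.all_iff _).mpr fun x => (h.all_iff _).mpr fun y => ?_⟩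
    · rw [t1, h.all_iff, GameTree.best_iff hρ, h.h0]
      refine and_congr_right fun hy => forall_congr' fun z => ?_
      rw [h.h0]
      exact imp_congr_right fun hz => (h.nd_iff hρ x y z (t2 y) (t2 z)).symm
    · rw [t2, h.ex_iff, he.eq_iff]
      constructor
      · intro h1
        rcases ReflTransGen.cases_head h1 with h2 | ⟨z, hz, hz'⟩
        · exact Or.inl h2
        · exact Or.inr ⟨z, (t1 x z).mpr hz, (t2 z y).mpr hz'⟩
      · rintro (rfl | ⟨z, hz, hz'⟩)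
        · exact ReflTransGen.refl
        · exact ReflTransGen.head ((t1 x z).mp hz) ((t2 z y).mp hz')
  · -- truth
    have t5 : ∀ ψ : Form m, ψ.code < φ.code + 1 → ∀ x,
        (tab G v e φ.code 5 ψ.code (e x) ↔ G.sat v ψ x) := fun ψ hψ x => tab5 he ψ hψ x
    refine ⟨fun hk => (h.all_iff _).mpr fun x => ?_, fun i hi hk => (h.all_iff _).mpr fun x => ?_,
      fun k hk hk' hn => (h.all_iff _).mpr fun x => ?_,
      fun k hk l hl hk' hl' hn => (h.all_iff _).mpr fun x => ?_,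
      fun k hk l hl hl' hn => (h.all_iff _).mpr fun x => ?_⟩
    · rw [h.end_iff]
      exact t5 .fin hk x
    · rw [h.end_iff, h.h4 x i hi]
      refine (t5 (.turn ⟨i, hi⟩) hk x).trans ?_
      refine and_congr_right fun _ => ⟨fun h1 => by rw [h1], fun h1 => Fin.ext h1.symm⟩
    · obtain ⟨_, ψ, rfl⟩ := (t6 _).mp hk'
      exact (t5 (.neg ψ) hn x).trans (not_congr (t5 ψ hk x).symm)
    · obtain ⟨_, ψ, rfl⟩ := (t6 _).mp hk'
      obtain ⟨_, χ, rfl⟩ := (t6 _).mp hl'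
      exact (t5 (.and ψ χ) hn x).trans (and_congr (t5 ψ hk x).symm (t5 χ hl x).symm)
    · obtain ⟨_, ψ, rfl⟩ := (t6 _).mp hl'
      obtain ⟨r, rfl⟩ := md_of_code hk
      rw [h.ex_iff]
      exact (t5 (.dia r ψ) hn x).trans (exists_congr fun y =>
        and_congr (h.rel_iff t3 t1 t2 r x y).symm (t5 ψ hl y).symm)
  · rw [h.ex_iff]
    exact ⟨x0, fun h1 => hx0 ((tab5 he φ (by omega) x0).mp h1)⟩

/-- Tables as numbers. -/
lemma exists_bits (T : ℕ → ℕ → ℕ → Prop) (M : ℕ) (hT : ∀ t a b, T t a b → t < M ∧ a < M ∧ b < M) :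
    ∃ c < 2 ^ (M ^ 4), bt c = T := by
  classical
  refine ⟨Nat.ofBits (fun i : Fin (M ^ 4) => decide (T (Nat.unpair i).1
    (Nat.unpair (Nat.unpair i).2).1 (Nat.unpair (Nat.unpair i).2).2)), Nat.ofBits_lt_two_pow _, ?_⟩
  funext t a b
  refine propext ?_
  have h0 : ∀ c, bt c t a b ↔ c.testBit (Nat.pair t (Nat.pair a b)) = true := by
    intro c
    rw [Nat.testBit_eq_decide_div_mod_eq, decide_eq_true_iff]
    rfl
  rw [h0]
  rcases Nat.lt_or_ge (Nat.pair t (Nat.pair a b)) (M ^ 4) with h | h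
  · rw [Nat.testBit_ofBits_lt _ _ h]
    simp [Nat.unpair_pair]
  · rw [Nat.testBit_ofBits_ge _ _ h]
    refine ⟨fun h1 => by simp at h1, fun h1 => ?_⟩
    exfalso
    obtain ⟨h2, h3, h4⟩ := hT t a b h1
    have h5 : Nat.pair a b < M ^ 2 :=
      lt_of_lt_of_le (Nat.pair_lt_max_add_one_sq a b) (Nat.pow_le_pow_left (by omega) 2)
    have h6 : t < M ^ 2 := lt_of_lt_of_le h2 (by nlinarith)
    have h7 : Nat.pair t (Nat.pair a b) < (M ^ 2) ^ 2 :=
      lt_of_lt_of_le (Nat.pair_lt_max_add_one_sq _ _) (Nat.pow_le_pow_left (by omega) 2)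
    have h8 : (M ^ 2) ^ 2 = M ^ 4 := by ring
    omega

/-- bound for the entries of the table -/
def mb (m n : ℕ) : ℕ := bound m (n + 3) + n + m + 8

lemma code_iff (m n : ℕ) :
    (∃ c < 2 ^ (mb m n ^ 4), WfC m (bt c) n ∧ bt c 6 n 0) ↔ ∃ φ : Form m, φ.code = n := by
  constructor
  · rintro ⟨c, _, h1, h2⟩
    exact wf_form h1 n (by omega) h2
  · intro h
    obtain ⟨c, hc, hc'⟩ := exists_bits
      (fun t a b => t = 6 ∧ b = 0 ∧ a < n + 1 ∧ ∃ φ : Form m, φ.code = a) (mb m n) (by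
        rintro t a b ⟨h1, h2, h3, _⟩
        unfold mb
        omega)
    refine ⟨c, hc, ?_⟩
    rw [hc']
    exact ⟨wfC_of fun q => by simp, rfl, rfl, by omega, h⟩

lemma invalid_iff (m n : ℕ) :
    (∃ N < mb m n, ∃ r < mb m n, ∃ c < 2 ^ (mb m n ^ 4), Chk m (bt c) n N r) ↔
      ∃ φ : Form m, φ.code = n ∧ ¬ Valid φ := by
  constructor
  · rintro ⟨N, _, r, _, c, _, h⟩
    exact sound h
  · rintro ⟨φ, rfl, h⟩
    obtain ⟨V, hV, G, v, x, hc, hx⟩ := small_model φ h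
    have hle := (bound_mono m (show φ.len + 2 ≤ φ.code + 3 by have := φ.len_le; omega))
    have hN : Nat.card V < mb m φ.code := by
      unfold mb
      omega
    let e : V → ℕ := fun x => (Finite.equivFin V x : ℕ)
    have he : Function.Injective e := fun x y hxy => (Finite.equivFin V).injective (Fin.ext hxy)
    have hr : ∀ a, a < Nat.card V ↔ ∃ x, e x = a := fun a =>
      ⟨fun ha => ⟨(Finite.equivFin V).symm ⟨a, ha⟩, by simp [e]⟩, fun ⟨x, hx⟩ => by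
        rw [← hx]
        exact (Finite.equivFin V x).2⟩
    obtain ⟨c, hc, hc'⟩ := exists_bits (tab G v e φ.code) (mb m φ.code)
      (tab_bdd hr hN.le (by unfold mb; omega) (by unfold mb; omega))
    refine ⟨Nat.card V, hN, e G.root, lt_trans ((hr _).mpr ⟨_, rfl⟩) hN, c, hc, ?_⟩
    rw [hc']
    exact complete he hr hx

/-- **Validity is decidable**, in fact primitive recursive. -/
theorem valid_primrec (m : ℕ) : PrimrecPred (fun n : ℕ => ∃ φ : Form m, φ.code = n ∧ Valid φ) := by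
  have hmb : ∀ {α : Type} [Primcodable α] {f : α → ℕ}, Primrec f → Primrec (fun a => mb m (f a)) := by
    intro α _ f hf
    unfold mb
    exact p_add (p_add (p_add (prim_bound m (p_add hf (Primrec.const 3))) hf) (Primrec.const m))
      (Primrec.const 8)
  have hpw : ∀ {α : Type} [Primcodable α] {f : α → ℕ}, Primrec f →
      Primrec (fun a => 2 ^ (mb m (f a) ^ 4)) := by
    intro α _ f hf
    exact p_pow (Primrec.const 2) (p_pow (hmb hf) (Primrec.const 4))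
  have h1 : PrimrecPred (fun n : ℕ => ∃ c < 2 ^ (mb m n ^ 4), WfC m (bt c) n ∧ bt c 6 n 0) := by
    refine p_bex (hpw Primrec.id) ((prim_wfC Primrec.snd Primrec.fst).and
      (p_bt Primrec.snd (Primrec.const 6) Primrec.fst (Primrec.const 0)))
  have h2 : PrimrecPred (fun n : ℕ => ∃ N < mb m n, ∃ r < mb m n, ∃ c < 2 ^ (mb m n ^ 4),
      Chk m (bt c) n N r) := by
    refine p_bex (hmb Primrec.id) (p_bex (hmb Primrec.fst) (p_bex
      (hpw (Primrec.fst.comp Primrec.fst)) (prim_chk Primrec.snd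
        (Primrec.fst.comp (Primrec.fst.comp Primrec.fst))
        (Primrec.snd.comp (Primrec.fst.comp Primrec.fst)) (Primrec.snd.comp Primrec.fst))))
  refine (h1.and h2.not).of_eq fun n => ?_
  rw [code_iff, invalid_iff]
  constructor
  · rintro ⟨⟨φ, hφ⟩, h⟩
    refine ⟨φ, hφ, ?_⟩
    by_contra h3
    exact h ⟨φ, hφ, h3⟩
  · rintro ⟨φ, hφ, hv⟩
    refine ⟨⟨φ, hφ⟩, ?_⟩
    rintro ⟨ψ, hψ, hv'⟩
    exact hv' (Form.code_inj (hψ.trans hφ.symm) ▸ hv)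

end Pool.Agent.H181R4.GL
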