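import Mathlib

/-!
The modal logic of best action in finite game trees: language, game trees, relational backward
induction, semantics.
-/

set_option autoImplicit false

namespace Pool.Agent.H181R4.GL

open Relation

/-- The modalities, for `m` players. -/
inductive Md (m : ℕ) : Type
  | move
  | moveOf (i : Fin m)
  | movePlus
  | pref (i : Fin m)
  | best
  | bestStar

/-- Formulas: proposition letters, the constants `end` and `turn_i`, negation, conjunction and a
diamond for each modality (the box is `¬ ◇ ¬`). -/
inductive Form (m : ℕ) : Type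
  | var (n : ℕ)
  | fin
  | turn (i : Fin m)
  | neg (φ : Form m)
  | and (φ ψ : Form m)
  | dia (r : Md m) (φ : Form m)

/-- A rooted tree on the node set `V` with turn labels (used at the nodes that have a child) and a
total preorder `pref i` (`pref i u v`: player `i` weakly prefers `v` to `u`) of the end nodes for
each player. -/
structure GameTree (m : ℕ) (V : Type) where
  root : V
  move : V → V → Prop
  turn : V → Fin m
  pref : Fin m → V → V → Prop
  root_no_parent : ∀ x, ¬ move x root
  parent_unique : ∀ x y z, move x z → move y z → x = y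
  reachable : ∀ x, ReflTransGen move root x
  pref_refl : ∀ i x, (∀ w, ¬ move x w) → pref i x x
  pref_trans : ∀ i x y z, (∀ w, ¬ move x w) → (∀ w, ¬ move y w) → (∀ w, ¬ move z w) →
    pref i x y → pref i y z → pref i x z
  pref_total : ∀ i x y, (∀ w, ¬ move x w) → (∀ w, ¬ move y w) → pref i x y ∨ pref i y x

namespace GameTree

variable {m : ℕ} {V : Type} (G : GameTree m V)

/-- End nodes. -/
def End (x : V) : Prop := ∀ y, ¬ G.move x y

/-- One stage of relational backward induction applied to the relation `A` of active moves: the
active move from `x` to `y` becomes passive if some other active move from `x` to `z` is such that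
the player whose turn it is at `x` strictly prefers every end node reachable from `z` to every end
node reachable from `y`, by active moves. -/
def step (A : V → V → Prop) (x y : V) : Prop :=
  A x y ∧ ¬ ∃ z, z ≠ y ∧ A x z ∧ ∀ u v, G.End u → G.End v → ReflTransGen A y u →
    ReflTransGen A z v → G.pref (G.turn x) u v ∧ ¬ G.pref (G.turn x) v u

/-- The active moves after `k` stages. -/
def active : ℕ → V → V → Prop
  | 0 => G.move
  | k + 1 => G.step (active k)

/-- The moves that stay active for ever. -/
def best (x y : V) : Prop := ∀ k, G.active k x y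

/-- The accessibility relations. -/
def rel : Md m → V → V → Prop
  | .move => G.move
  | .moveOf i => fun x y => G.turn x = i ∧ G.move x y
  | .movePlus => TransGen G.move
  | .pref i => fun x y => G.End x ∧ G.End y ∧ G.pref i x y
  | .best => G.best
  | .bestStar => ReflTransGen G.best

/-- Truth of a formula at a node, under the valuation `v`. -/
def sat (v : ℕ → V → Prop) : Form m → V → Prop
  | .var n, x => v n x
  | .fin, x => G.End x
  | .turn i, x => ¬ G.End x ∧ G.turn x = i
  | .neg φ, x => ¬ sat v φ x
  | .and φ ψ, x => sat v φ x ∧ sat v ψ x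
  | .dia r φ, x => ∃ y, G.rel r x y ∧ sat v φ y

end GameTree

/-- Validity: truth at every node of every finite game tree under every valuation. -/
def Valid {m : ℕ} (φ : Form m) : Prop :=
  ∀ (V : Type) [Finite V] (G : GameTree m V) (v : ℕ → V → Prop) (x : V), G.sat v φ x

/-! ### Codes of formulas -/

/-- Code of a modality. -/
def Md.code {m : ℕ} : Md m → ℕ
  | .move => 0
  | .movePlus => 1
  | .best => 2
  | .bestStar => 3
  | .moveOf i => 4 + 2 * i
  | .pref i => 5 + 2 * i

/-- Code of a formula (`Nat.pair` is Mathlib's pairing function). -/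
def Form.code {m : ℕ} : Form m → ℕ
  | .var n => Nat.pair 0 n
  | .fin => Nat.pair 1 0
  | .turn i => Nat.pair 2 i
  | .neg φ => Nat.pair 3 φ.code
  | .and φ ψ => Nat.pair 4 (Nat.pair φ.code ψ.code)
  | .dia r φ => Nat.pair 5 (Nat.pair r.code φ.code)

/-! ### The bound -/

/-- Number of symbols. -/
def Form.len {m : ℕ} : Form m → ℕ
  | .var _ => 1
  | .fin => 1
  | .turn _ => 1
  | .neg φ => φ.len + 1
  | .and φ ψ => φ.len + ψ.len + 1
  | .dia _ φ => φ.len + 1

/-- Size of a tree of height `n` with branching `b`. -/
def sz (b : ℕ) : ℕ → ℕ
  | 0 => 1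
  | n + 1 => 1 + b * sz b n

/-- The bound on the number of nodes of a model. -/
def bound (m g : ℕ) : ℕ :=
  sz (1 + 2 * g + 2 * m + m * g) (2 ^ g * (2 ^ g) ^ m * (9 ^ g) ^ m * 3 ^ m)

/-! ### The calculus -/

section Calculus

variable {m : ℕ}

/-- Implication. -/
def Form.imp (φ ψ : Form m) : Form m := .neg (.and φ (.neg ψ))

/-- The box of a modality. -/
def Form.box (r : Md m) (φ : Form m) : Form m := .neg (.dia r (.neg φ))

/-- Uniform substitution of the formula `s n` for the proposition letter `n`. -/
def Form.subst (s : ℕ → Form m) : Form m → Form m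
  | .var n => s n
  | .fin => .fin
  | .turn i => .turn i
  | .neg φ => .neg (φ.subst s)
  | .and φ ψ => .and (φ.subst s) (ψ.subst s)
  | .dia r φ => .dia r (φ.subst s)

/-- The theorems of the calculus with axioms `Ax` and the rules modus ponens, necessitation for
every modality, and uniform substitution. -/
inductive Thm (Ax : Form m → Prop) : Form m → Prop
  | ax {φ : Form m} : Ax φ → Thm Ax φ
  | mp {φ ψ : Form m} : Thm Ax (φ.imp ψ) → Thm Ax φ → Thm Ax ψ
  | nec (r : Md m) {φ : Form m} : Thm Ax φ → Thm Ax (φ.box r)
  | subst (s : ℕ → Form m) {φ : Form m} : Thm Ax φ → Thm Ax (φ.subst s)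

/-- The axioms: the formulas which are true at all nodes of all game trees with at most
`bound m (φ.len + 2)` nodes, under all valuations. -/
def SmallValid (φ : Form m) : Prop :=
  ∀ N ≤ bound m (φ.len + 2), ∀ (G : GameTree m (Fin N)) (v : ℕ → Fin N → Prop) (x : Fin N),
    G.sat v φ x

end Calculus

end Pool.Agent.H181R4.GL
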