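import Pool.Agent.H181R4.GL.Best

/-! Annotated trees up to profile: exchange and bounded derivations. -/

set_option autoImplicit false

namespace Pool.Agent.H181R4.GL

open Relation

/-- Extension of a finite partial order isomorphism of the rationals. -/
lemma iso_extend (S : Set (ℚ × ℚ)) (hfin : S.Finite)
    (hS : ∀ p ∈ S, ∀ q ∈ S, cmp p.1 q.1 = cmp p.2 q.2) :
    ∃ σ : ℚ ≃o ℚ, ∀ p ∈ S, σ p.1 = p.2 := by
  classical
  let p0 : Order.PartialIso ℚ ℚ := ⟨hfin.toFinset, fun p hp q hq =>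
    hS p (hfin.mem_toFinset.mp hp) q (hfin.mem_toFinset.mp hq)⟩
  let to_cofinal : ℚ ⊕ ℚ → Order.Cofinal (Order.PartialIso ℚ ℚ) := fun p ↦
    Sum.recOn p (Order.PartialIso.definedAtLeft ℚ) (Order.PartialIso.definedAtRight ℚ)
  let our_ideal : Order.Ideal (Order.PartialIso ℚ ℚ) := Order.idealOfCofinals p0 to_cofinal
  let F a := Order.PartialIso.funOfIdeal a our_ideal
    (Order.cofinal_meets_idealOfCofinals _ to_cofinal (Sum.inl a))
  let G b := Order.PartialIso.invOfIdeal b our_ideal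
    (Order.cofinal_meets_idealOfCofinals _ to_cofinal (Sum.inr b))
  refine ⟨OrderIso.ofCmpEqCmp (fun a ↦ (F a).val) (fun b ↦ (G b).val) fun a b ↦ by
      rcases (F a).prop with ⟨f, hf, ha⟩
      rcases (G b).prop with ⟨g, hg, hb⟩
      rcases our_ideal.directed _ hf _ hg with ⟨m, _, fm, gm⟩
      exact m.prop (a, _) (fm ha) (_, b) (gm hb), fun p hp => ?_⟩
  show (F p.1).val = p.2
  rcases (F p.1).prop with ⟨f, hf, ha⟩
  have h0 : p0 ∈ our_ideal := Order.mem_idealOfCofinals _ _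
  rcases our_ideal.directed _ hf _ h0 with ⟨m, _, fm, gm⟩
  have h1 := m.prop (p.1, _) (fm ha) p (gm (hfin.mem_toFinset.mpr hp))
  simp only [cmp_self_eq_eq] at h1
  exact (cmp_eq_eq_iff _ _).mp h1.symm

/-- Data attached to a node. -/
@[ext] structure Dt (m : ℕ) where
  ty : Set (Form m)
  att : Set (Fin m × Form m)
  lo : Fin m → ℚ
  hi : Fin m → ℚ

variable {m : ℕ}

/-- Truth conditions of a formula at a node, in terms of the children. -/
def Tc {ι : Type} (E : Prop) (tn : Fin m → Prop) (d : ι → Set (Form m)) (b : ι → Prop)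
    (pf : Fin m → Form m → Prop) (t : Set (Form m)) : Form m → Prop
  | .var _ => True
  | .fin => Form.fin ∈ t ↔ E
  | .turn i => Form.turn i ∈ t ↔ tn i
  | .neg ψ => Form.neg ψ ∈ t ↔ ψ ∉ t
  | .and ψ χ => Form.and ψ χ ∈ t ↔ ψ ∈ t ∧ χ ∈ t
  | .dia .move ψ => Form.dia .move ψ ∈ t ↔ ∃ j, ψ ∈ d j
  | .dia (.moveOf i) ψ => Form.dia (.moveOf i) ψ ∈ t ↔ tn i ∧ ∃ j, ψ ∈ d j
  | .dia .movePlus ψ => Form.dia .movePlus ψ ∈ t ↔ ∃ j, ψ ∈ d j ∨ Form.dia .movePlus ψ ∈ d j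
  | .dia .best ψ => Form.dia .best ψ ∈ t ↔ ∃ j, b j ∧ ψ ∈ d j
  | .dia .bestStar ψ => Form.dia .bestStar ψ ∈ t ↔ ψ ∈ t ∨ ∃ j, b j ∧ Form.dia .bestStar ψ ∈ d j
  | .dia (.pref i) ψ => Form.dia (.pref i) ψ ∈ t ↔ pf i ψ

/-- The children that are best for player `i`. -/
def bst {ι : Type} (i : Fin m) (d : ι → Dt m) (j : ι) : Prop := ∀ l, ¬ (d j).hi i < (d l).lo i

/-- Correct data at an end node. -/
structure LeafOK (Γ : Set (Form m)) (θ : Fin m → Form m → WithBot ℚ) (e : Dt m) : Prop where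
  lohi : e.lo = e.hi
  sub : e.ty ⊆ Γ
  att : ∀ i ψ, (i, ψ) ∈ e.att ↔ Form.dia (.pref i) ψ ∈ Γ ∧ ψ ∈ e.ty ∧ ((e.lo i : ℚ) : WithBot ℚ) = θ i ψ
  bd : ∀ i ψ, Form.dia (.pref i) ψ ∈ Γ → ψ ∈ e.ty → ((e.lo i : ℚ) : WithBot ℚ) ≤ θ i ψ
  tc : ∀ χ ∈ Γ, Tc True (fun _ => False) (fun j : Empty => j.elim) (fun _ => False)
    (fun i ψ => ((e.lo i : ℚ) : WithBot ℚ) ≤ θ i ψ) e.ty χ

/-- Correct data at a node with children `ι`. -/
structure Local (Γ : Set (Form m)) {ι : Type} (i : Fin m) (d : ι → Dt m) (e : Dt m) : Prop where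
  ne : Nonempty ι
  sub : e.ty ⊆ Γ
  tc : ∀ χ ∈ Γ, Tc False (i = ·) (fun j => (d j).ty) (bst i d) (fun _ _ => False) e.ty χ
  lo1 : ∀ k, ∃ j, bst i d j ∧ (d j).lo k = e.lo k
  lo2 : ∀ k j, bst i d j → e.lo k ≤ (d j).lo k
  hi1 : ∀ k, ∃ j, bst i d j ∧ (d j).hi k = e.hi k
  hi2 : ∀ k j, bst i d j → (d j).hi k ≤ e.hi k
  att : ∀ p, p ∈ e.att ↔ ∃ j, p ∈ (d j).att

/-- Derivable data. -/
inductive Der (Γ : Set (Form m)) (θ : Fin m → Form m → WithBot ℚ) : Dt m → Prop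
  | leaf (e : Dt m) : LeafOK Γ θ e → Der Γ θ e
  | node (ι : Type) (hι : Finite ι) (i : Fin m) (d : ι → Dt m) (e : Dt m) :
      (∀ j, Der Γ θ (d j)) → Local Γ i d e → Der Γ θ e

/-- Derivable data, with trees of bounded branching and depth. -/
def DerB (Γ : Set (Form m)) (θ : Fin m → Form m → WithBot ℚ) (b : ℕ) : ℕ → Dt m → Prop
  | 0, e => LeafOK Γ θ e
  | n + 1, e => LeafOK Γ θ e ∨ ∃ (ι : Type) (_ : Finite ι) (i : Fin m) (d : ι → Dt m),
      Nat.card ι ≤ b ∧ (∀ j, DerB Γ θ b n (d j)) ∧ Local Γ i d e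

variable {Γ : Set (Form m)} {θ : Fin m → Form m → WithBot ℚ} {b : ℕ}

lemma DerB.leaf {n : ℕ} {e : Dt m} (h : LeafOK Γ θ e) : DerB Γ θ b n e := by
  cases n with
  | zero => exact h
  | succ n => exact Or.inl h

lemma DerB.succ {n : ℕ} : ∀ {e : Dt m}, DerB Γ θ b n e → DerB Γ θ b (n + 1) e := by
  induction n with
  | zero => exact fun h => Or.inl h
  | succ n ih =>
    intro e h
    rcases h with h | ⟨ι, hι, i, d, h1, h2, h3⟩
    · exact Or.inl h
    · exact Or.inr ⟨ι, hι, i, d, h1, fun j => ih (h2 j), h3⟩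

/-- Applying order automorphisms to the coordinates. -/
def Dt.map (σ : Fin m → (ℚ ≃o ℚ)) (e : Dt m) : Dt m :=
  ⟨e.ty, e.att, fun i => σ i (e.lo i), fun i => σ i (e.hi i)⟩

/-- The automorphisms fix the thresholds. -/
def Fixes (Γ : Set (Form m)) (θ : Fin m → Form m → WithBot ℚ) (σ : Fin m → (ℚ ≃o ℚ)) : Prop :=
  ∀ i ψ, Form.dia (.pref i) ψ ∈ Γ → ∀ c : ℚ, θ i ψ = c → σ i c = c

lemma Fixes.le_iff {σ : Fin m → (ℚ ≃o ℚ)} (hσ : Fixes Γ θ σ) {i : Fin m} {ψ : Form m}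
    (h : Form.dia (.pref i) ψ ∈ Γ) (q : ℚ) :
    ((σ i q : ℚ) : WithBot ℚ) ≤ θ i ψ ↔ (q : WithBot ℚ) ≤ θ i ψ := by
  have h1 := hσ i ψ h
  cases h2 : θ i ψ with
  | bot => simp
  | coe c =>
    have h3 := h1 c h2
    rw [WithBot.coe_le_coe, WithBot.coe_le_coe]
    conv_lhs => rw [← h3]
    exact (σ i).le_iff_le

lemma Fixes.eq_iff {σ : Fin m → (ℚ ≃o ℚ)} (hσ : Fixes Γ θ σ) {i : Fin m} {ψ : Form m}
    (h : Form.dia (.pref i) ψ ∈ Γ) (q : ℚ) :
    ((σ i q : ℚ) : WithBot ℚ) = θ i ψ ↔ (q : WithBot ℚ) = θ i ψ := by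
  have h1 := hσ i ψ h
  cases h2 : θ i ψ with
  | bot => simp
  | coe c =>
    have h3 := h1 c h2
    rw [WithBot.coe_inj, WithBot.coe_inj]
    conv_lhs => rw [← h3]
    exact (σ i).injective.eq_iff

lemma Tc.congr {ι ι' : Type} {E : Prop} {tn : Fin m → Prop} {d : ι → Set (Form m)} {b : ι → Prop}
    {pf pf' : Fin m → Form m → Prop} {t : Set (Form m)} {χ : Form m}
    {d' : ι' → Set (Form m)} {b' : ι' → Prop}
    (h1 : ∀ ψ, (∃ j, ψ ∈ d j) ↔ (∃ j, ψ ∈ d' j))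
    (h2 : ∀ ψ, (∃ j, b j ∧ ψ ∈ d j) ↔ (∃ j, b' j ∧ ψ ∈ d' j))
    (h3 : ∀ i ψ, χ = .dia (.pref i) ψ → (pf i ψ ↔ pf' i ψ))
    (h : Tc E tn d b pf t χ) : Tc E tn d' b' pf' t χ := by
  rcases χ with _ | _ | i | ψ | ⟨ψ, χ⟩ | ⟨r, ψ⟩
  · trivial
  · exact h
  · exact h
  · exact h
  · exact h
  · rcases r with _ | i | _ | i | _ | _
    · exact (show _ ↔ _ from h).trans (h1 ψ)
    · exact (show _ ↔ _ from h).trans (and_congr_right fun _ => h1 ψ)
    · refine (show _ ↔ _ from h).trans ?_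
      rw [exists_or, exists_or, h1, h1]
    · exact (show _ ↔ _ from h).trans (h3 i ψ rfl)
    · exact (show _ ↔ _ from h).trans (h2 ψ)
    · exact (show _ ↔ _ from h).trans (or_congr_right (h2 _))

lemma LeafOK.map {σ : Fin m → (ℚ ≃o ℚ)} (hσ : Fixes Γ θ σ) {e : Dt m} (h : LeafOK Γ θ e) :
    LeafOK Γ θ (e.map σ) where
  lohi := by
    funext i
    show σ i (e.lo i) = σ i (e.hi i)
    rw [h.lohi]
  sub := h.sub
  att i ψ := by
    refine (h.att i ψ).trans (and_congr_right fun h1 => and_congr_right fun _ => ?_)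
    exact (hσ.eq_iff h1 _).symm
  bd i ψ h1 h2 := (hσ.le_iff h1 _).mpr (h.bd i ψ h1 h2)
  tc χ hχ := by
    refine (h.tc χ hχ).congr (fun _ => Iff.rfl) (fun _ => Iff.rfl) fun i ψ h1 => ?_
    subst h1
    exact (hσ.le_iff hχ _).symm

lemma bst_map {ι : Type} (σ : Fin m → (ℚ ≃o ℚ)) (i : Fin m) (d : ι → Dt m) (j : ι) :
    bst i (fun j => (d j).map σ) j ↔ bst i d j := by
  refine forall_congr' fun l => not_congr ?_
  exact (σ i).lt_iff_lt

lemma Local.map {ι : Type} {i : Fin m} {d : ι → Dt m} {σ : Fin m → (ℚ ≃o ℚ)} {e : Dt m}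
    (h : Local Γ i d e) : Local Γ i (fun j => (d j).map σ) (e.map σ) where
  ne := h.ne
  sub := h.sub
  tc χ hχ := by
    refine (h.tc χ hχ).congr (fun _ => Iff.rfl) (fun ψ => ?_) fun _ _ _ => Iff.rfl
    exact exists_congr fun j => and_congr_left fun _ => (bst_map σ i d j).symm
  lo1 k := by
    obtain ⟨j, h1, h2⟩ := h.lo1 k
    exact ⟨j, (bst_map σ i d j).mpr h1, congrArg (σ k) h2⟩
  lo2 k j hj := (σ k).monotone (h.lo2 k j ((bst_map σ i d j).mp hj))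
  hi1 k := by
    obtain ⟨j, h1, h2⟩ := h.hi1 k
    exact ⟨j, (bst_map σ i d j).mpr h1, congrArg (σ k) h2⟩
  hi2 k j hj := (σ k).monotone (h.hi2 k j ((bst_map σ i d j).mp hj))
  att := h.att

lemma DerB.map {σ : Fin m → (ℚ ≃o ℚ)} (hσ : Fixes Γ θ σ) {n : ℕ} :
    ∀ {e : Dt m}, DerB Γ θ b n e → DerB Γ θ b n (e.map σ) := by
  induction n with
  | zero => exact fun h => LeafOK.map hσ h
  | succ n ih =>
    intro e h
    rcases h with h | ⟨ι, hι, i, d, h1, h2, h3⟩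
    · exact Or.inl (h.map hσ)
    · exact Or.inr ⟨ι, hι, i, fun j => (d j).map σ, h1, fun j => ih (h2 j), h3.map⟩

/-- Restriction to a suitable set of children. -/
lemma Local.restrict {ι : Type} {i : Fin m} {d : ι → Dt m} {e : Dt m}
    (h : Local Γ i d e) (S : Set ι) (z : ι) (hz : z ∈ S) (hz' : ∀ l, (d l).lo i ≤ (d z).lo i)
    (h1 : ∀ ψ ∈ Γ, (∃ j, ψ ∈ (d j).ty) → ∃ j ∈ S, ψ ∈ (d j).ty)
    (h2 : ∀ ψ ∈ Γ, (∃ j, bst i d j ∧ ψ ∈ (d j).ty) → ∃ j ∈ S, bst i d j ∧ ψ ∈ (d j).ty)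
    (h3 : ∀ k, ∃ j ∈ S, bst i d j ∧ (d j).lo k = e.lo k)
    (h4 : ∀ k, ∃ j ∈ S, bst i d j ∧ (d j).hi k = e.hi k)
    (h5 : ∀ p ∈ e.att, ∃ j ∈ S, p ∈ (d j).att)
    (hty : ∀ j, (d j).ty ⊆ Γ) :
    Local Γ i (fun j : S => d j) e := by
  have hb : ∀ j : S, bst i (fun j : S => d j) j ↔ bst i d j := by
    intro j
    constructor
    · intro hj l hl
      exact hj ⟨z, hz⟩ (lt_of_lt_of_le hl (hz' l))
    · exact fun hj l => hj l
  refine ⟨⟨⟨z, hz⟩⟩, h.sub, fun χ hχ => ?_, fun k => ?_, fun k j hj => h.lo2 k j ((hb j).mp hj),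
    fun k => ?_, fun k j hj => h.hi2 k j ((hb j).mp hj), fun p => ?_⟩
  · refine (h.tc χ hχ).congr (fun ψ => ⟨?_, ?_⟩) (fun ψ => ⟨?_, ?_⟩) fun _ _ _ => Iff.rfl
    · rintro ⟨j, hj⟩
      obtain ⟨j', h6, h7⟩ := h1 ψ (hty j hj) ⟨j, hj⟩
      exact ⟨⟨j', h6⟩, h7⟩
    · rintro ⟨j, hj⟩
      exact ⟨j, hj⟩
    · rintro ⟨j, hj1, hj⟩
      obtain ⟨j', h6, h7, h8⟩ := h2 ψ (hty j hj) ⟨j, hj1, hj⟩
      exact ⟨⟨j', h6⟩, (hb _).mpr h7, h8⟩
    · rintro ⟨j, hj1, hj⟩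
      exact ⟨j, (hb j).mp hj1, hj⟩
  · obtain ⟨j, h6, h7, h8⟩ := h3 k
    exact ⟨⟨j, h6⟩, (hb _).mpr h7, h8⟩
  · obtain ⟨j, h6, h7, h8⟩ := h4 k
    exact ⟨⟨j, h6⟩, (hb _).mpr h7, h8⟩
  · constructor
    · intro hp
      obtain ⟨j, h6, h7⟩ := h5 p hp
      exact ⟨⟨j, h6⟩, h7⟩
    · rintro ⟨j, hj⟩
      exact (h.att p).mpr ⟨j, hj⟩

lemma Der.sub {e : Dt m} (h : Der Γ θ e) : e.ty ⊆ Γ := by
  cases h with
  | leaf _ h => exact h.sub
  | node _ _ _ _ _ _ h => exact h.sub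

lemma Der.att {e : Dt m} (h : Der Γ θ e) :
    ∀ p ∈ e.att, Form.dia (.pref p.1) p.2 ∈ Γ := by
  induction h with
  | leaf e h => exact fun p hp => ((h.att p.1 p.2).mp hp).1
  | node ι hι i d e _ h ih =>
    intro p hp
    obtain ⟨j, hj⟩ := (h.att p).mp hp
    exact ih j p hj

lemma DerB.der {n : ℕ} : ∀ {e : Dt m}, DerB Γ θ b n e → Der Γ θ e := by
  induction n with
  | zero => exact fun h => Der.leaf _ h
  | succ n ih =>
    intro e h
    rcases h with h | ⟨ι, hι, i, d, h1, h2, h3⟩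
    · exact Der.leaf _ h
    · exact Der.node ι hι i d e (fun j => ih (h2 j)) h3

/-- Width reduction. -/
lemma Local.reduce {ι : Type} [Finite ι] {i : Fin m} {d : ι → Dt m} {e : Dt m}
    (h : Local Γ i d e) (hΓ : Γ.Finite) (hsub : ∀ j, (d j).ty ⊆ Γ)
    (hatt : ∀ p ∈ e.att, Form.dia (.pref p.1) p.2 ∈ Γ)
    (hclo : ∀ j ψ, Form.dia (.pref j) ψ ∈ Γ → ψ ∈ Γ) :
    ∃ S : Set ι, S.ncard ≤ 1 + 2 * Γ.ncard + 2 * m + m * Γ.ncard ∧
      Local Γ i (fun j : S => d j) e := by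
  classical
  haveI := h.ne
  obtain ⟨z, hz⟩ := Finite.exists_max (fun j => (d j).lo i)
  haveI : Finite Γ := hΓ
  let j0 : ι := z
  let f1 : Γ → ι := fun ψ => if h : ∃ j, ψ.1 ∈ (d j).ty then h.choose else j0
  let f2 : Γ → ι := fun ψ => if h : ∃ j, bst i d j ∧ ψ.1 ∈ (d j).ty then h.choose else j0
  let f3 : Fin m → ι := fun k => (h.lo1 k).choose
  let f4 : Fin m → ι := fun k => (h.hi1 k).choose
  let f5 : Fin m × Γ → ι := fun p => if h : ∃ j, (p.1, p.2.1) ∈ (d j).att then h.choose else j0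
  let S : Set ι := {z} ∪ Set.range f1 ∪ Set.range f2 ∪ Set.range f3 ∪ Set.range f4 ∪ Set.range f5
  refine ⟨S, ?_, ?_⟩
  · have hr : ∀ (α : Type) [Finite α] (f : α → ι), (Set.range f).ncard ≤ Nat.card α := by
      intro α _ f
      rw [← Set.image_univ]
      refine (Set.ncard_image_le (Set.toFinite _)).trans ?_
      rw [Set.ncard_univ]
    have e1 := hr _ f1
    have e2 := hr _ f2
    have e3 := hr _ f3
    have e4 := hr _ f4
    have e5 := hr _ f5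
    have eΓ : Nat.card Γ = Γ.ncard := rfl
    rw [eΓ] at e1 e2
    rw [Nat.card_eq_fintype_card, Fintype.card_fin] at e3 e4
    rw [Nat.card_prod, Nat.card_eq_fintype_card (α := Fin m), Fintype.card_fin, eΓ] at e5
    calc S.ncard ≤ ({z} ∪ Set.range f1 ∪ Set.range f2 ∪ Set.range f3 ∪ Set.range f4 : Set ι).ncard
          + (Set.range f5).ncard := Set.ncard_union_le _ _
      _ ≤ (({z} ∪ Set.range f1 ∪ Set.range f2 ∪ Set.range f3 : Set ι).ncard
          + (Set.range f4).ncard) + (Set.range f5).ncard := by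
          gcongr; exact Set.ncard_union_le _ _
      _ ≤ ((({z} ∪ Set.range f1 ∪ Set.range f2 : Set ι).ncard + (Set.range f3).ncard)
          + (Set.range f4).ncard) + (Set.range f5).ncard := by
          gcongr; exact Set.ncard_union_le _ _
      _ ≤ (((({z} ∪ Set.range f1 : Set ι).ncard + (Set.range f2).ncard) + (Set.range f3).ncard)
          + (Set.range f4).ncard) + (Set.range f5).ncard := by
          gcongr; exact Set.ncard_union_le _ _
      _ ≤ ((((({z} : Set ι).ncard + (Set.range f1).ncard) + (Set.range f2).ncard)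
          + (Set.range f3).ncard) + (Set.range f4).ncard) + (Set.range f5).ncard := by
          gcongr; exact Set.ncard_union_le _ _
      _ ≤ _ := by
          rw [Set.ncard_singleton]
          omega
  · refine h.restrict S z (by simp [S]) hz ?_ ?_ ?_ ?_ ?_ hsub
    · intro ψ hψ hj
      refine ⟨f1 ⟨ψ, hψ⟩, by simp [S], ?_⟩
      simp only [f1, dif_pos hj]
      exact hj.choose_spec
    · intro ψ hψ hj
      refine ⟨f2 ⟨ψ, hψ⟩, by simp [S], ?_⟩
      simp only [f2, dif_pos hj]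
      exact hj.choose_spec
    · intro k
      exact ⟨f3 k, by simp [S], (h.lo1 k).choose_spec⟩
    · intro k
      exact ⟨f4 k, by simp [S], (h.hi1 k).choose_spec⟩
    · intro p hp
      have hψ := hclo _ _ (hatt p hp)
      have hj : ∃ j, (p.1, p.2) ∈ (d j).att := (h.att p).mp hp
      refine ⟨f5 (p.1, ⟨p.2, hψ⟩), by simp [S], ?_⟩
      have h6 : f5 (p.1, ⟨p.2, hψ⟩) = hj.choose := by
        simp only [f5]
        rw [dif_pos hj]
      rw [h6]
      exact hj.choose_spec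

/-- The profile of data. -/
noncomputable def prof (Γ : Set (Form m)) (θ : Fin m → Form m → WithBot ℚ) (e : Dt m) :
    (Γ → Prop) × (Fin m → Γ → Prop) × (Fin m → Γ → Ordering × Ordering) × (Fin m → Ordering) :=
  (fun ψ => ψ.1 ∈ e.ty, fun i ψ => (i, ψ.1) ∈ e.att,
    fun i ψ => (cmp ((e.lo i : ℚ) : WithBot ℚ) (θ i ψ), cmp ((e.hi i : ℚ) : WithBot ℚ) (θ i ψ)),
    fun i => cmp (e.lo i) (e.hi i))

lemma prof_map (hΓ : Γ.Finite) {e e' : Dt m} (he : Der Γ θ e) (he' : Der Γ θ e')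
    (hclo : ∀ j ψ, Form.dia (.pref j) ψ ∈ Γ → ψ ∈ Γ) (h : prof Γ θ e' = prof Γ θ e) :
    ∃ σ : Fin m → (ℚ ≃o ℚ), Fixes Γ θ σ ∧ e'.map σ = e := by
  classical
  simp only [prof, Prod.mk.injEq] at h
  obtain ⟨h1, h2, h3, h4⟩ := h
  have h3' : ∀ i ψ, ψ ∈ Γ → ∀ c : ℚ, θ i ψ = c →
      cmp (e'.lo i) c = cmp (e.lo i) c ∧ cmp (e'.hi i) c = cmp (e.hi i) c := by
    intro i ψ hψ c hc
    have h5 := congrFun (congrFun h3 i) ⟨ψ, hψ⟩
    simp only [Prod.mk.injEq, hc] at h5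
    have h6 : ∀ a b : ℚ, cmp (a : WithBot ℚ) (b : WithBot ℚ) = cmp a b := by
      intro a b
      simp only [cmp, cmpUsing, WithBot.coe_lt_coe]
    rw [h6, h6, h6, h6] at h5
    exact h5
  have key : ∀ i, ∃ σ : ℚ ≃o ℚ, (∀ ψ, Form.dia (.pref i) ψ ∈ Γ → ∀ c : ℚ, θ i ψ = c → σ c = c) ∧
      σ (e'.lo i) = e.lo i ∧ σ (e'.hi i) = e.hi i := by
    intro i
    let T : Set (ℚ × ℚ) := {p | p.1 = p.2 ∧ ∃ ψ ∈ Γ, θ i ψ = p.1}
    have hT : T.Finite := by
      have : T ⊆ (fun ψ => (((θ i ψ).unbotD 0 : ℚ), ((θ i ψ).unbotD 0 : ℚ))) '' Γ := by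
        rintro ⟨a, b⟩ ⟨hab, ψ, hψ, hc⟩
        simp only at hab hc
        subst hab
        exact ⟨ψ, hψ, by simp [hc]⟩
      exact (hΓ.image _).subset this
    obtain ⟨σ, hσ⟩ := iso_extend (T ∪ {(e'.lo i, e.lo i), (e'.hi i, e.hi i)})
      (hT.union (Set.toFinite _)) (by
        have hlo : ∀ p ∈ T, cmp (e'.lo i) p.1 = cmp (e.lo i) p.2 := by
          rintro ⟨a, b⟩ ⟨hab, ψ, hψ, hc⟩
          simp only at hab hc
          subst hab
          exact (h3' i ψ hψ a hc).1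
        have hhi : ∀ p ∈ T, cmp (e'.hi i) p.1 = cmp (e.hi i) p.2 := by
          rintro ⟨a, b⟩ ⟨hab, ψ, hψ, hc⟩
          simp only at hab hc
          subst hab
          exact (h3' i ψ hψ a hc).2
        have hlh : cmp (e'.lo i) (e'.hi i) = cmp (e.lo i) (e.hi i) := congrFun h4 i
        have sw : ∀ a b c d : ℚ, cmp a b = cmp c d → cmp b a = cmp d c := by
          intro a b c d h
          rw [← cmp_swap a b, ← cmp_swap c d, h]
        rintro p (hp | hp) q (hq | hq)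
        · obtain ⟨hp1, _⟩ := hp
          obtain ⟨hq1, _⟩ := hq
          rw [hp1, hq1]
        · rcases hq with rfl | hq
          · exact sw _ _ _ _ (hlo p hp)
          · rw [Set.mem_singleton_iff] at hq
            subst hq
            exact sw _ _ _ _ (hhi p hp)
        · rcases hp with rfl | hp
          · exact hlo q hq
          · rw [Set.mem_singleton_iff] at hp
            subst hp
            exact hhi q hq
        · rcases hp with rfl | hp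
          · rcases hq with rfl | hq
            · simp
            · rw [Set.mem_singleton_iff] at hq
              subst hq
              exact hlh
          · rw [Set.mem_singleton_iff] at hp
            subst hp
            rcases hq with rfl | hq
            · exact sw _ _ _ _ hlh
            · rw [Set.mem_singleton_iff] at hq
              subst hq
              simp)
    refine ⟨σ, fun ψ hψ c hc => ?_, ?_, ?_⟩
    · exact hσ (c, c) (Or.inl ⟨rfl, ψ, hclo i ψ hψ, hc⟩)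
    · exact hσ (e'.lo i, e.lo i) (Or.inr (by simp))
    · exact hσ (e'.hi i, e.hi i) (Or.inr (by simp))
  choose σ hσ1 hσ2 hσ3 using key
  refine ⟨σ, fun i ψ hψ c hc => hσ1 i ψ hψ c hc, ?_⟩
  ext x
  · show x ∈ e'.ty ↔ x ∈ e.ty
    by_cases hx : x ∈ Γ
    · exact iff_of_eq (congrFun h1 ⟨x, hx⟩)
    · exact ⟨fun h => absurd (he'.sub h) hx, fun h => absurd (he.sub h) hx⟩
  · show x ∈ e'.att ↔ x ∈ e.att
    obtain ⟨i, ψ⟩ := x
    by_cases hx : ψ ∈ Γ
    · exact iff_of_eq (congrFun (congrFun h2 i) ⟨ψ, hx⟩)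
    · exact ⟨fun h => absurd (hclo i ψ (he'.att _ h)) hx, fun h => absurd (hclo i ψ (he.att _ h)) hx⟩
  · exact hσ2 x
  · exact hσ3 x

end Pool.Agent.H181R4.GL
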