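import Pool.Agent.H181R4.GL.Check

/-!
Tables which describe a game tree.
-/

set_option autoImplicit false

namespace Pool.Agent.H181R4.GL

open Relation

variable {m : ℕ} {V : Type} {G : GameTree m V} {e : V → ℕ} {N : ℕ} {T : ℕ → ℕ → ℕ → Prop}

/-- The table `T` describes the primitive relations of `G` under the numbering `e`. -/
structure Enc (G : GameTree m V) (e : V → ℕ) (N : ℕ) (T : ℕ → ℕ → ℕ → Prop) : Prop where
  inj : Function.Injective e
  rng : ∀ a, a < N ↔ ∃ x, e x = a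
  h0 : ∀ x y, T 0 (e x) (e y) ↔ G.move x y
  h4 : ∀ x i, i < m → (T 4 (e x) i ↔ i = (G.turn x : ℕ))
  h7 : ∀ (i : Fin m) x y, T (7 + i) (e x) (e y) ↔ G.pref i x y

namespace Enc

lemma all_iff (h : Enc G e N T) (P : ℕ → Prop) : (∀ a < N, P a) ↔ ∀ x, P (e x) :=
  ⟨fun H x => H _ ((h.rng _).mpr ⟨x, rfl⟩), fun H a ha => by
    obtain ⟨x, rfl⟩ := (h.rng a).mp ha
    exact H x⟩

lemma ex_iff (h : Enc G e N T) (P : ℕ → Prop) : (∃ a < N, P a) ↔ ∃ x, P (e x) :=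
  ⟨fun ⟨a, ha, H⟩ => by
    obtain ⟨x, rfl⟩ := (h.rng a).mp ha
    exact ⟨x, H⟩, fun ⟨x, H⟩ => ⟨_, (h.rng _).mpr ⟨x, rfl⟩, H⟩⟩

lemma end_iff (h : Enc G e N T) (x : V) : EndC T N (e x) ↔ G.End x := by
  unfold EndC GameTree.End
  rw [h.all_iff]
  exact forall_congr' fun y => not_congr (h.h0 x y)

lemma nd_iff (h : Enc G e N T) {r : Fin m → V → ℕ}
    (hr : ∀ i u v, G.End u → G.End v → (G.pref i u v ↔ r i u ≤ r i v)) (x y z : V)
    (hy : ∀ u, T 2 (e y) (e u) ↔ ReflTransGen G.best y u)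
    (hz : ∀ u, T 2 (e z) (e u) ↔ ReflTransGen G.best z u) :
    NdC m T N (e x) (e y) (e z) ↔ ¬ G.Dom r G.best (G.turn x) y z := by
  unfold NdC GameTree.Dom GameTree.Rch
  rw [h.ex_iff]
  push Not
  refine exists_congr fun u => ?_
  rw [h.ex_iff]
  refine exists_congr fun v => ?_
  rw [h.end_iff, h.end_iff, hy, hz]
  constructor
  · rintro ⟨h1, h2, h3, h4, i, hi, h5, h6⟩
    refine ⟨⟨h1, h3⟩, ⟨h2, h4⟩, ?_⟩
    obtain rfl := (h.h4 x i hi).mp h5
    rw [h.h7, h.h7, hr _ _ _ h1 h2, hr _ _ _ h2 h1] at h6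
    omega
  · rintro ⟨⟨h1, h3⟩, ⟨h2, h4⟩, h5⟩
    refine ⟨h1, h2, h3, h4, G.turn x, (G.turn x).2, (h.h4 x _ (G.turn x).2).mpr rfl, ?_⟩
    rw [h.h7, h.h7, hr _ _ _ h1 h2, hr _ _ _ h2 h1]
    omega

lemma rel_iff (h : Enc G e N T) (h3 : ∀ x y, T 3 (e x) (e y) ↔ TransGen G.move x y)
    (h1 : ∀ x y, T 1 (e x) (e y) ↔ G.best x y)
    (h2 : ∀ x y, T 2 (e x) (e y) ↔ ReflTransGen G.best x y) (r : Md m) (x y : V) :
    RelC m T N r.code (e x) (e y) ↔ G.rel r x y := by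
  unfold RelC
  cases r with
  | move =>
    simp only [Md.code, h.h0, GameTree.rel]
    constructor
    · rintro (h | h | h | h | ⟨i, _, h, _⟩ | ⟨i, _, h, _⟩) <;> first | exact h.2 | omega
    · exact fun h => Or.inl ⟨trivial, h⟩
  | movePlus =>
    simp only [Md.code, h3, GameTree.rel]
    constructor
    · rintro (h | h | h | h | ⟨i, _, h, _⟩ | ⟨i, _, h, _⟩) <;> first | omega | exact h.2
    · exact fun h => Or.inr (Or.inl ⟨trivial, h⟩)
  | best =>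
    simp only [Md.code, h1, GameTree.rel]
    constructor
    · rintro (h | h | h | h | ⟨i, _, h, _⟩ | ⟨i, _, h, _⟩) <;> first | omega | exact h.2
    · exact fun h => Or.inr (Or.inr (Or.inl ⟨trivial, h⟩))
  | bestStar =>
    simp only [Md.code, h2, GameTree.rel]
    constructor
    · rintro (h | h | h | h | ⟨i, _, h, _⟩ | ⟨i, _, h, _⟩) <;> first | omega | exact h.2
    · exact fun h => Or.inr (Or.inr (Or.inr (Or.inl ⟨trivial, h⟩)))
  | moveOf j =>
    simp only [Md.code, GameTree.rel]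
    constructor
    · rintro (h' | h' | h' | h' | ⟨i, hi, h', h5, h6⟩ | ⟨i, _, h', _⟩) <;> try omega
      have h7 : i = j := by omega
      subst h7
      exact ⟨(Fin.ext ((h.h4 x _ hi).mp h5)).symm, (h.h0 x y).mp h6⟩
    · rintro ⟨h5, h6⟩
      subst h5
      exact Or.inr (Or.inr (Or.inr (Or.inr (Or.inl ⟨_, (G.turn x).2, rfl,
        (h.h4 x _ (G.turn x).2).mpr rfl, (h.h0 x y).mpr h6⟩))))
  | pref j =>
    simp only [Md.code, GameTree.rel]
    constructor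
    · rintro (h' | h' | h' | h' | ⟨i, _, h', _⟩ | ⟨i, hi, h', h5, h6, h7⟩) <;> try omega
      have h8 : i = j := by omega
      subst h8
      exact ⟨(h.end_iff x).mp h5, (h.end_iff y).mp h6, (h.h7 _ _ _).mp h7⟩
    · rintro ⟨h5, h6, h7⟩
      exact Or.inr (Or.inr (Or.inr (Or.inr (Or.inr ⟨_, j.2, rfl,
        (h.end_iff x).mpr h5, (h.end_iff y).mpr h6, (h.h7 _ _ _).mpr h7⟩))))

end Enc

end Pool.Agent.H181R4.GL
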