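import Pool.Agent.H181R4.GL.Enc

/-!
A number passing the check gives a game tree refuting the formula.
-/

set_option autoImplicit false

namespace Pool.Agent.H181R4.GL

open Relation

variable {m : ℕ} {V : Type} {G : GameTree m V} {e : V → ℕ} {N : ℕ} {T : ℕ → ℕ → ℕ → Prop}

/-- well-formedness table -/
lemma wf_code {n : ℕ} (h : WfC m T n) : ∀ φ : Form m, φ.code < n + 1 → T 6 φ.code 0 := by
  intro φ
  induction φ with
  | var k =>
    intro hk
    refine (h _ hk).mpr (Or.inl ⟨k, ?_, rfl⟩)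
    exact lt_of_le_of_lt (Nat.right_le_pair 0 k) hk
  | fin =>
    intro hk
    exact (h _ hk).mpr (Or.inr (Or.inl rfl))
  | turn i =>
    intro hk
    exact (h _ hk).mpr (Or.inr (Or.inr (Or.inl ⟨i, i.2, rfl⟩)))
  | neg φ ih =>
    intro hk
    have h1 : φ.code < n + 1 := lt_of_le_of_lt (Nat.right_le_pair 3 φ.code) hk
    exact (h _ hk).mpr (Or.inr (Or.inr (Or.inr (Or.inl ⟨_, h1, ih h1, rfl⟩))))
  | and φ ψ ih ih' =>
    intro hk
    have h0 : Nat.pair φ.code ψ.code < n + 1 := lt_of_le_of_lt (Nat.right_le_pair 4 _) hk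
    have h1 : φ.code < n + 1 := lt_of_le_of_lt (Nat.left_le_pair _ _) h0
    have h2 : ψ.code < n + 1 := lt_of_le_of_lt (Nat.right_le_pair _ _) h0
    exact (h _ hk).mpr (Or.inr (Or.inr (Or.inr (Or.inr (Or.inl
      ⟨_, h1, _, h2, ih h1, ih' h2, rfl⟩)))))
  | dia r φ ih =>
    intro hk
    have h0 : Nat.pair r.code φ.code < n + 1 := lt_of_le_of_lt (Nat.right_le_pair 5 _) hk
    have h1 : φ.code < n + 1 := lt_of_le_of_lt (Nat.right_le_pair _ _) h0
    have h2 : r.code < 4 + 2 * m := by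
      cases r <;> simp only [Md.code] <;> omega
    exact (h _ hk).mpr (Or.inr (Or.inr (Or.inr (Or.inr (Or.inr
      ⟨_, h2, _, h1, ih h1, rfl⟩)))))

lemma md_of_code {k : ℕ} (hk : k < 4 + 2 * m) : ∃ r : Md m, r.code = k := by
  rcases Nat.lt_or_ge k 4 with h | h
  · interval_cases k
    · exact ⟨.move, rfl⟩
    · exact ⟨.movePlus, rfl⟩
    · exact ⟨.best, rfl⟩
    · exact ⟨.bestStar, rfl⟩
  · rcases Nat.even_or_odd' k with ⟨j, hj | hj⟩
    · refine ⟨.moveOf ⟨j - 2, by omega⟩, ?_⟩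
      simp only [Md.code]
      omega
    · refine ⟨.pref ⟨j - 2, by omega⟩, ?_⟩
      simp only [Md.code]
      omega

lemma pair_gt {a b : ℕ} (ha : 0 < a) : b < Nat.pair a b := by
  have := Nat.add_le_pair a b
  omega

lemma wf_form {n : ℕ} (h : WfC m T n) : ∀ q < n + 1, T 6 q 0 → ∃ φ : Form m, φ.code = q := by
  intro q
  induction q using Nat.strong_induction_on with
  | _ q ih =>
  intro hq h6
  rcases (h q hq).mp h6 with ⟨k, _, rfl⟩ | rfl | ⟨i, hi, rfl⟩ | ⟨k, hk, h1, rfl⟩ |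
    ⟨k, hk, l, hl, h1, h2, rfl⟩ | ⟨k, hk, l, hl, h1, rfl⟩
  · exact ⟨.var k, rfl⟩
  · exact ⟨.fin, rfl⟩
  · exact ⟨.turn ⟨i, hi⟩, rfl⟩
  · obtain ⟨φ, rfl⟩ := ih k (pair_gt (by omega)) hk h1
    exact ⟨.neg φ, rfl⟩
  · obtain ⟨φ, rfl⟩ := ih k (lt_of_le_of_lt (Nat.left_le_pair k l) (pair_gt (by omega))) hk h1
    obtain ⟨ψ, rfl⟩ := ih l (lt_of_le_of_lt (Nat.right_le_pair _ l) (pair_gt (by omega))) hl h2
    exact ⟨.and φ ψ, rfl⟩
  · obtain ⟨φ, rfl⟩ := ih l (lt_of_le_of_lt (Nat.right_le_pair _ l) (pair_gt (by omega))) hl h1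
    obtain ⟨r, rfl⟩ := md_of_code hk
    exact ⟨.dia r φ, rfl⟩

namespace Enc

lemma tr3 [Finite V] (h : Enc G e N T) {r : ℕ} (ht : TreeC T N r) (x z : V) :
    T 3 (e x) (e z) ↔ TransGen G.move x z := by
  obtain ⟨_, _, _, h1, h2, h3⟩ := ht
  have h1' : ∀ x z : V, T 3 (e x) (e z) ↔ ∃ y, T 0 (e x) (e y) ∧ (e y = e z ∨ T 3 (e y) (e z)) := by
    intro x z
    rw [h1 _ ((h.rng _).mpr ⟨x, rfl⟩) _ ((h.rng _).mpr ⟨z, rfl⟩), h.ex_iff]
  have h2' : ∀ x y z : V, T 3 (e x) (e y) → T 3 (e y) (e z) → T 3 (e x) (e z) := fun x y z =>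
    h2 _ ((h.rng _).mpr ⟨x, rfl⟩) _ ((h.rng _).mpr ⟨y, rfl⟩) _ ((h.rng _).mpr ⟨z, rfl⟩)
  have h3' : ∀ x : V, ¬ T 3 (e x) (e x) := fun x => h3 _ ((h.rng _).mpr ⟨x, rfl⟩)
  have hs : ∀ x y : V, G.move x y → T 3 (e x) (e y) := fun x y hxy =>
    (h1' x y).mpr ⟨y, (h.h0 x y).mpr hxy, Or.inl rfl⟩
  have hwf : WellFounded (fun y x : V => T 3 (e x) (e y)) := by
    haveI : IsTrans V (fun y x : V => T 3 (e x) (e y)) := ⟨fun a b c h4 h5 => h2' _ _ _ h5 h4⟩
    haveI : Std.Irrefl (fun y x : V => T 3 (e x) (e y)) := ⟨fun a h4 => h3' a h4⟩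
    exact Finite.wellFounded_of_trans_of_irrefl _
  constructor
  · intro hxz
    induction x using hwf.induction with
    | _ x ih =>
      obtain ⟨y, h4, h5⟩ := (h1' x z).mp hxz
      have h6 := (h.h0 x y).mp h4
      rcases h5 with h5 | h5
      · obtain rfl := h.inj h5
        exact TransGen.single h6
      · exact TransGen.head h6 (ih y (hs x y h6) h5)
  · intro hxz
    induction hxz with
    | single h4 => exact hs _ _ h4
    | tail _ h4 ih => exact h2' _ _ _ ih (hs _ _ h4)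

lemma tr2 [Finite V] (h : Enc G e N T) (hb : BestC m T N) (x : V) :
    ∀ u, T 2 (e x) (e u) ↔ ReflTransGen G.best x u := by
  obtain ⟨ρ, hρ⟩ := G.exists_rank
  induction x using G.wf.induction with
  | _ x ih =>
    intro u
    rw [hb.2 _ ((h.rng _).mpr ⟨x, rfl⟩) _ ((h.rng _).mpr ⟨u, rfl⟩), h.ex_iff]
    have h1 : ∀ y, (T 1 (e x) (e y) ↔ G.best x y) := by
      intro y
      rw [hb.1 _ ((h.rng _).mpr ⟨x, rfl⟩) _ ((h.rng _).mpr ⟨y, rfl⟩), h.all_iff,
        GameTree.best_iff hρ, h.h0]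
      refine and_congr_right fun hy => forall_congr' fun z => ?_
      rw [h.h0]
      exact imp_congr_right fun hz => h.nd_iff hρ x y z (ih y hy) (ih z hz)
    constructor
    · rintro (h2 | ⟨z, hz, hz'⟩)
      · obtain rfl := h.inj h2
        exact ReflTransGen.refl
      · have h3 := (h1 z).mp hz
        exact ReflTransGen.head h3 ((ih z (GameTree.best_move h3) u).mp hz')
    · intro h2
      rcases ReflTransGen.cases_head h2 with h3 | ⟨z, hz, hz'⟩
      · subst h3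
        exact Or.inl rfl
      · exact Or.inr ⟨z, (h1 z).mpr hz, (ih z (GameTree.best_move hz) u).mpr hz'⟩

lemma tr1 [Finite V] (h : Enc G e N T) (hb : BestC m T N) (x y : V) :
    T 1 (e x) (e y) ↔ G.best x y := by
  obtain ⟨ρ, hρ⟩ := G.exists_rank
  rw [hb.1 _ ((h.rng _).mpr ⟨x, rfl⟩) _ ((h.rng _).mpr ⟨y, rfl⟩), h.all_iff,
    GameTree.best_iff hρ, h.h0]
  refine and_congr_right fun hy => forall_congr' fun z => ?_
  rw [h.h0]
  exact imp_congr_right fun hz => h.nd_iff hρ x y z (h.tr2 hb y) (h.tr2 hb z)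

lemma tr5 [Finite V] (h : Enc G e N T) {n r : ℕ} (ht : TreeC T N r) (hb : BestC m T N)
    (hw : WfC m T n) (hs : TrC m T n N) (φ : Form m) :
    φ.code < n + 1 → ∀ x, T 5 φ.code (e x) ↔ G.sat (fun k y => T 5 (Nat.pair 0 k) (e y)) φ x := by
  obtain ⟨s1, s2, s3, s4, s5⟩ := hs
  have hN : ∀ x, e x < N := fun x => (h.rng _).mpr ⟨x, rfl⟩
  induction φ with
  | var k => exact fun _ _ => Iff.rfl
  | fin =>
    intro hk x
    exact (s1 hk _ (hN x)).trans (h.end_iff x)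
  | turn i =>
    intro hk x
    refine (s2 i i.2 hk _ (hN x)).trans ?_
    rw [h.end_iff, h.h4 x i i.2]
    exact and_congr_right fun _ => ⟨fun h5 => (Fin.ext h5).symm, fun h5 => by rw [← h5]⟩
  | neg φ ih =>
    intro hk x
    have h1 : φ.code < n + 1 := lt_of_le_of_lt (Nat.right_le_pair 3 φ.code) hk
    exact (s3 _ h1 (wf_code hw φ h1) hk _ (hN x)).trans (not_congr (ih h1 x))
  | and φ ψ ih ih' =>
    intro hk x
    have h0 : Nat.pair φ.code ψ.code < n + 1 := lt_of_le_of_lt (Nat.right_le_pair 4 _) hk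
    have h1 : φ.code < n + 1 := lt_of_le_of_lt (Nat.left_le_pair _ _) h0
    have h2 : ψ.code < n + 1 := lt_of_le_of_lt (Nat.right_le_pair _ _) h0
    exact (s4 _ h1 _ h2 (wf_code hw φ h1) (wf_code hw ψ h2) hk _ (hN x)).trans
      (and_congr (ih h1 x) (ih' h2 x))
  | dia ρ φ ih =>
    intro hk x
    have h0 : Nat.pair ρ.code φ.code < n + 1 := lt_of_le_of_lt (Nat.right_le_pair 5 _) hk
    have h1 : φ.code < n + 1 := lt_of_le_of_lt (Nat.right_le_pair _ _) h0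
    have h2 : ρ.code < 4 + 2 * m := by
      cases ρ <;> simp only [Md.code] <;> omega
    refine (s5 _ h2 _ h1 (wf_code hw φ h1) hk _ (hN x)).trans ?_
    rw [h.ex_iff]
    exact exists_congr fun y => and_congr
      (h.rel_iff (h.tr3 ht) (h.tr1 hb) (fun x => h.tr2 hb x) ρ x y) (ih h1 y)

end Enc

/-- Soundness of the check. -/
theorem sound' {n r : ℕ} (h : Chk m T n N r) : ∃ φ : Form m, φ.code = n ∧
    ∃ (G : GameTree m (Fin N)) (v : ℕ → Fin N → Prop) (x : Fin N), ¬ G.sat v φ x := by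
  obtain ⟨hr, hw, h6, ht, hu, hp, hb, hs, x, hx, hx'⟩ := h
  obtain ⟨φ, hφ⟩ := wf_form hw n (by omega) h6
  refine ⟨φ, hφ, ?_⟩
  have htr : ∀ x z : Fin N, T 3 x z → TransGen (fun x y : Fin N => T 0 x y) x z := by
    obtain ⟨_, _, _, h1, h2, h3⟩ := ht
    have hwf : WellFounded (fun y x : Fin N => T 3 x y) := by
      haveI : IsTrans (Fin N) (fun y x : Fin N => T 3 x y) :=
        ⟨fun a b c h4 h5 => h2 _ c.2 _ b.2 _ a.2 h5 h4⟩
      haveI : Std.Irrefl (fun y x : Fin N => T 3 x y) := ⟨fun a h4 => h3 a a.2 h4⟩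
      exact Finite.wellFounded_of_trans_of_irrefl _
    intro x z hxz
    induction x using hwf.induction with
    | _ x ih =>
      obtain ⟨y, hy, h4, h5⟩ := (h1 x x.2 z z.2).mp hxz
      rcases h5 with h5 | h5
      · have h7 : (⟨y, hy⟩ : Fin N) = z := Fin.ext h5
        subst h7
        exact TransGen.single h4
      · exact TransGen.head (b := (⟨y, hy⟩ : Fin N)) h4
          (ih ⟨y, hy⟩ ((h1 x x.2 y hy).mpr ⟨y, hy, h4, Or.inl rfl⟩) h5)
  let G : GameTree m (Fin N) :=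
    { root := ⟨r, hr⟩
      move := fun x y => T 0 x y
      turn := fun x => ⟨(hu x x.2).choose, (hu x x.2).choose_spec.1⟩
      pref := fun i x y => T (7 + i) x y
      root_no_parent := fun x => ht.1 x x.2
      parent_unique := fun x y z h1 h2 => Fin.ext (ht.2.1 x x.2 y y.2 z z.2 h1 h2)
      reachable := fun x => by
        rcases ht.2.2.1 x x.2 with h1 | h1
        · have : x = ⟨r, hr⟩ := Fin.ext h1
          subst this
          exact ReflTransGen.refl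
        · exact (htr ⟨r, hr⟩ x h1).to_reflTransGen
      pref_refl := fun i x h1 => (hp i i.2).1 x x.2 (fun y hy => h1 ⟨y, hy⟩)
      pref_trans := fun i x y z h1 h2 h3 => (hp i i.2).2.1 x x.2 y y.2 z z.2
        (fun y hy => h1 ⟨y, hy⟩) (fun y hy => h2 ⟨y, hy⟩) (fun y hy => h3 ⟨y, hy⟩)
      pref_total := fun i x y h1 h2 => (hp i i.2).2.2 x x.2 y y.2
        (fun y hy => h1 ⟨y, hy⟩) (fun y hy => h2 ⟨y, hy⟩) }
  have hE : Enc G (fun x : Fin N => (x : ℕ)) N T :=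
    { inj := Fin.val_injective
      rng := fun a => ⟨fun ha => ⟨⟨a, ha⟩, rfl⟩, fun ⟨x, hx⟩ => by rw [← hx]; exact x.2⟩
      h0 := fun _ _ => Iff.rfl
      h4 := fun x i hi => ⟨fun h1 => (hu x x.2).choose_spec.2.2 i hi h1, fun h1 => by
        rw [h1]
        exact (hu x x.2).choose_spec.2.1⟩
      h7 := fun _ _ _ => Iff.rfl }
  have h7 := hE.tr5 ht hb hw hs φ (by omega) ⟨x, hx⟩
  refine ⟨G, fun k (y : Fin N) => T 5 (Nat.pair 0 k) y, ⟨x, hx⟩, fun hv => hx' ?_⟩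
  rw [← hφ]
  exact h7.mpr hv

/-- Soundness of the check. -/
theorem sound {n r : ℕ} (h : Chk m T n N r) : ∃ φ : Form m, φ.code = n ∧ ¬ Valid φ := by
  obtain ⟨φ, hφ, G, v, x, hx⟩ := sound' h
  exact ⟨φ, hφ, fun hv => hx (hv _ G v x)⟩

end Pool.Agent.H181R4.GL
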