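import Pool.Agent.H181R4.GL.Close

/-! The data of a node of a game tree are derivable. -/

set_option autoImplicit false

namespace Pool.Agent.H181R4.GL

open Relation

variable {m : ℕ}

theorem model_der {V : Type} [Finite V] (G : GameTree m V) (v : ℕ → V → Prop)
    (Γ : Set (Form m)) (hcl : Cl Γ) :
    ∃ (θ : Fin m → Form m → WithBot ℚ) (D : V → Dt m), (∀ x, Der Γ θ (D x)) ∧
      (∀ x, (D x).ty = {ψ | ψ ∈ Γ ∧ G.sat v ψ x}) ∧
      ∀ i ψ, Form.dia (.pref i) ψ ∈ Γ → θ i ψ = ⊥ ∨ (i, ψ) ∈ (D G.root).att := by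
  classical
  obtain ⟨r, hr⟩ := G.exists_rank
  have hθ : ∀ (i : Fin m) (ψ : Form m), ∃ t : WithBot ℚ,
      (∀ w, G.End w → G.sat v ψ w → (((r i w : ℚ)) : WithBot ℚ) ≤ t) ∧
      (t = ⊥ ∨ ∃ w, G.End w ∧ G.sat v ψ w ∧ t = ((r i w : ℚ) : WithBot ℚ)) := by
    intro i ψ
    by_cases h : ∃ w, G.End w ∧ G.sat v ψ w
    · obtain ⟨w, hw, hmax⟩ := Set.exists_max_image {w | G.End w ∧ G.sat v ψ w} (r i)
        (Set.toFinite _) h
      refine ⟨((r i w : ℚ) : WithBot ℚ), fun w' h1 h2 => ?_, Or.inr ⟨w, hw.1, hw.2, rfl⟩⟩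
      rw [WithBot.coe_le_coe]
      exact_mod_cast hmax w' ⟨h1, h2⟩
    · exact ⟨⊥, fun w h1 h2 => absurd ⟨w, h1, h2⟩ h, Or.inl rfl⟩
  choose θ hθ1 hθ2 using hθ
  have hlo : ∀ (i : Fin m) (x : V), ∃ q : ℚ, (∃ u, G.Rch G.best x u ∧ (r i u : ℚ) = q) ∧
      ∀ u, G.Rch G.best x u → q ≤ r i u := by
    intro i x
    obtain ⟨u, hu, hu'⟩ := Set.exists_min_image {u | G.Rch G.best x u} (r i) (Set.toFinite _)
      (GameTree.rch_best_nonempty x)
    exact ⟨r i u, ⟨u, hu, rfl⟩, fun w hw => by exact_mod_cast hu' w hw⟩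
  have hhi : ∀ (i : Fin m) (x : V), ∃ q : ℚ, (∃ u, G.Rch G.best x u ∧ (r i u : ℚ) = q) ∧
      ∀ u, G.Rch G.best x u → (r i u : ℚ) ≤ q := by
    intro i x
    obtain ⟨u, hu, hu'⟩ := Set.exists_max_image {u | G.Rch G.best x u} (r i) (Set.toFinite _)
      (GameTree.rch_best_nonempty x)
    exact ⟨r i u, ⟨u, hu, rfl⟩, fun w hw => by exact_mod_cast hu' w hw⟩
  choose lo hlo1 hlo2 using hlo
  choose hi hhi1 hhi2 using hhi
  let D : V → Dt m := fun x => ⟨{ψ | ψ ∈ Γ ∧ G.sat v ψ x},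
    {p | Form.dia (.pref p.1) p.2 ∈ Γ ∧ ∃ w, G.End w ∧ ReflTransGen G.move x w ∧ G.sat v p.2 w ∧
      ((r p.1 w : ℚ) : WithBot ℚ) = θ p.1 p.2}, fun i => lo i x, fun i => hi i x⟩
  have hend : ∀ x, G.End x → ∀ u, G.Rch G.best x u → u = x := by
    intro x hx u hu
    rcases (G.rch_iff G.best (fun _ _ h => GameTree.best_move h) x u).mp hu with ⟨_, h⟩ | ⟨y, hy, _⟩
    · exact h
    · exact absurd (GameTree.best_move hy) (hx y)
  have hloE : ∀ x, G.End x → ∀ i, lo i x = r i x := by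
    intro x hx i
    obtain ⟨u, hu, hu'⟩ := hlo1 i x
    rw [← hu', hend x hx u hu]
  have hhiE : ∀ x, G.End x → ∀ i, hi i x = r i x := by
    intro x hx i
    obtain ⟨u, hu, hu'⟩ := hhi1 i x
    rw [← hu', hend x hx u hu]
  have hrefl : ∀ x, G.End x → ∀ w, ReflTransGen G.move x w → w = x := by
    intro x hx w hw
    rcases ReflTransGen.cases_head hw with h | ⟨y, hy, _⟩
    · exact h.symm
    · exact absurd hy (hx y)
  have hdom : ∀ i y z, G.Dom r G.best i y z ↔ hi i y < lo i z := by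
    intro i y z
    constructor
    · intro h
      obtain ⟨u, hu, hu'⟩ := hhi1 i y
      obtain ⟨w, hw, hw'⟩ := hlo1 i z
      rw [← hu', ← hw']
      exact_mod_cast h u w hu hw
    · intro h u w hu hw
      have h1 := hhi2 i y u hu
      have h2 := hlo2 i z w hw
      have h3 : (r i u : ℚ) < r i w := by linarith
      exact_mod_cast h3
  have hprefE : ∀ x, G.End x → ∀ i ψ, (∃ y, G.rel (.pref i) x y ∧ G.sat v ψ y) ↔
      ((r i x : ℚ) : WithBot ℚ) ≤ θ i ψ := by
    intro x hx i ψ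
    constructor
    · rintro ⟨y, ⟨_, hy, hxy⟩, hs⟩
      have h1 := (hr i x y hx hy).mp hxy
      refine le_trans ?_ (hθ1 i ψ y hy hs)
      rw [WithBot.coe_le_coe]
      exact_mod_cast h1
    · intro h
      rcases hθ2 i ψ with h1 | ⟨w, hw, hs, h1⟩
      · rw [h1] at h
        simp at h
      · rw [h1, WithBot.coe_le_coe] at h
        refine ⟨w, ⟨hx, hw, (hr i x w hx hw).mpr ?_⟩, hs⟩
        exact_mod_cast h
  refine ⟨θ, D, ?_, fun x => rfl, ?_⟩
  · intro x
    induction x using G.wf.induction with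
    | _ x ih =>
    by_cases hx : G.End x
    · apply Der.leaf
      refine ⟨?_, fun ψ h => h.1, ?_, ?_, ?_⟩
      · funext i
        show lo i x = hi i x
        rw [hloE x hx, hhiE x hx]
      · intro i ψ
        show (Form.dia (.pref i) ψ ∈ Γ ∧ ∃ w, G.End w ∧ ReflTransGen G.move x w ∧ G.sat v ψ w ∧
          ((r i w : ℚ) : WithBot ℚ) = θ i ψ) ↔ Form.dia (.pref i) ψ ∈ Γ ∧ (ψ ∈ Γ ∧ G.sat v ψ x) ∧
          ((lo i x : ℚ) : WithBot ℚ) = θ i ψ
        rw [hloE x hx]
        refine and_congr_right fun h1 => ⟨?_, ?_⟩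
        · rintro ⟨w, _, h2, h3, h4⟩
          obtain rfl := hrefl x hx w h2
          exact ⟨⟨hcl.dia _ _ h1, h3⟩, h4⟩
        · rintro ⟨⟨_, h3⟩, h4⟩
          exact ⟨x, hx, ReflTransGen.refl, h3, h4⟩
      · intro i ψ _ h2
        show ((lo i x : ℚ) : WithBot ℚ) ≤ θ i ψ
        rw [hloE x hx]
        exact hθ1 i ψ x hx h2.2
      · intro χ hχ
        have hno : ∀ y, ¬ G.move x y := hx
        rcases χ with _ | _ | i | ψ | ⟨ψ, χ⟩ | ⟨rr, ψ⟩
        · trivial
        · show (Form.fin ∈ Γ ∧ G.End x) ↔ True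
          exact iff_true_intro ⟨hχ, hx⟩
        · show (Form.turn i ∈ Γ ∧ (¬ G.End x ∧ G.turn x = i)) ↔ False
          exact iff_false_intro fun h => h.2.1 hx
        · show (Form.neg ψ ∈ Γ ∧ ¬ G.sat v ψ x) ↔ ¬ (ψ ∈ Γ ∧ G.sat v ψ x)
          have := hcl.neg ψ hχ
          tauto
        · show (Form.and ψ χ ∈ Γ ∧ (G.sat v ψ x ∧ G.sat v χ x)) ↔
            (ψ ∈ Γ ∧ G.sat v ψ x) ∧ (χ ∈ Γ ∧ G.sat v χ x)
          have := hcl.and ψ χ hχ
          tauto
        · have hψ := hcl.dia _ _ hχ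
          rcases rr with _ | i | _ | i | _ | _
          · show (Form.dia .move ψ ∈ Γ ∧ ∃ y, G.move x y ∧ _) ↔ _
            refine ⟨fun ⟨_, y, hy, _⟩ => absurd hy (hno y), fun ⟨j, _⟩ => j.elim⟩
          · show (Form.dia (.moveOf i) ψ ∈ Γ ∧ ∃ y, (G.turn x = i ∧ G.move x y) ∧ _) ↔ _
            refine ⟨fun ⟨_, y, hy, _⟩ => absurd hy.2 (hno y), fun h => h.1.elim⟩
          · show (Form.dia .movePlus ψ ∈ Γ ∧ ∃ y, TransGen G.move x y ∧ _) ↔ _
            refine ⟨fun ⟨_, y, hy, _⟩ => ?_, fun ⟨j, _⟩ => j.elim⟩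
            obtain ⟨z, hz, _⟩ := TransGen.head'_iff.mp hy
            exact absurd hz (hno z)
          · show (Form.dia (.pref i) ψ ∈ Γ ∧ ∃ y, G.rel (.pref i) x y ∧ G.sat v ψ y) ↔
              ((lo i x : ℚ) : WithBot ℚ) ≤ θ i ψ
            rw [hloE x hx, hprefE x hx i ψ]
            exact and_iff_right hχ
          · show (Form.dia .best ψ ∈ Γ ∧ ∃ y, G.best x y ∧ _) ↔ _
            refine ⟨fun ⟨_, y, hy, _⟩ => absurd (GameTree.best_move hy) (hno y), fun ⟨j, _⟩ => j.elim⟩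
          · show (Form.dia .bestStar ψ ∈ Γ ∧ ∃ y, ReflTransGen G.best x y ∧ G.sat v ψ y) ↔
              (ψ ∈ Γ ∧ G.sat v ψ x) ∨ _
            constructor
            · rintro ⟨_, y, hy, hs⟩
              rcases ReflTransGen.cases_head hy with h | ⟨z, hz, _⟩
              · subst h
                exact Or.inl ⟨hψ, hs⟩
              · exact absurd (GameTree.best_move hz) (hno z)
            · rintro (⟨_, h⟩ | ⟨j, _⟩)
              · exact ⟨hχ, x, ReflTransGen.refl, h⟩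
              · exact j.elim
    · obtain ⟨y0, hy0⟩ : ∃ y, G.best x y := GameTree.best_ne x hx
      have hbst : ∀ y (hy : G.move x y),
          bst (G.turn x) (fun y : {y // G.move x y} => D y) ⟨y, hy⟩ ↔ G.best x y := by
        intro y hy
        rw [GameTree.best_iff hr]
        constructor
        · intro h
          refine ⟨hy, fun z hz hd => h ⟨z, hz⟩ ((hdom _ _ _).mp hd)⟩
        · rintro ⟨_, h⟩ ⟨z, hz⟩ hd
          exact h z hz ((hdom _ _ _).mpr hd)
      have hsubR : ∀ y, G.best x y → ∀ u, G.Rch G.best y u → G.Rch G.best x u :=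
        fun y hy u hu => ⟨hu.1, ReflTransGen.head hy hu.2⟩
      have hR : ∀ u, G.Rch G.best x u → ∃ y, G.best x y ∧ G.Rch G.best y u := by
        intro u hu
        rcases (G.rch_iff G.best (fun _ _ h => GameTree.best_move h) x u).mp hu with ⟨h, _⟩ | h
        · exact absurd h hx
        · exact h
      refine Der.node {y // G.move x y} inferInstance (G.turn x) (fun y => D y) (D x)
        (fun y => ih y.1 y.2) ?_
      refine ⟨⟨⟨y0, GameTree.best_move hy0⟩⟩, fun ψ h => h.1, ?_, ?_, ?_, ?_, ?_, ?_⟩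
      · intro χ hχ
        rcases χ with _ | _ | i | ψ | ⟨ψ, χ⟩ | ⟨rr, ψ⟩
        · trivial
        · show (Form.fin ∈ Γ ∧ G.End x) ↔ False
          exact iff_false_intro fun h => hx h.2
        · show (Form.turn i ∈ Γ ∧ (¬ G.End x ∧ G.turn x = i)) ↔ (G.turn x = i)
          tauto
        · show (Form.neg ψ ∈ Γ ∧ ¬ G.sat v ψ x) ↔ ¬ (ψ ∈ Γ ∧ G.sat v ψ x)
          have := hcl.neg ψ hχ
          tauto
        · show (Form.and ψ χ ∈ Γ ∧ (G.sat v ψ x ∧ G.sat v χ x)) ↔
            (ψ ∈ Γ ∧ G.sat v ψ x) ∧ (χ ∈ Γ ∧ G.sat v χ x)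
          have := hcl.and ψ χ hχ
          tauto
        · have hψ := hcl.dia _ _ hχ
          rcases rr with _ | i | _ | i | _ | _
          · constructor
            · rintro ⟨_, y, hy, hs⟩
              exact ⟨⟨y, hy⟩, hψ, hs⟩
            · rintro ⟨⟨y, hy⟩, _, hs⟩
              exact ⟨hχ, y, hy, hs⟩
          · constructor
            · rintro ⟨_, y, ⟨h1, hy⟩, hs⟩
              exact ⟨h1, ⟨y, hy⟩, hψ, hs⟩
            · rintro ⟨h1, ⟨y, hy⟩, _, hs⟩
              exact ⟨hχ, y, ⟨h1, hy⟩, hs⟩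
          · constructor
            · rintro ⟨_, y, hy, hs⟩
              obtain ⟨z, hz, hzy⟩ := TransGen.head'_iff.mp (show TransGen G.move x y from hy)
              refine ⟨⟨z, hz⟩, ?_⟩
              rcases (reflTransGen_iff_eq_or_transGen.mp hzy) with h | h
              · subst h
                exact Or.inl ⟨hψ, hs⟩
              · exact Or.inr ⟨hχ, y, h, hs⟩
            · rintro ⟨⟨z, hz⟩, ⟨_, hs⟩ | ⟨_, y, hy, hs⟩⟩
              · exact ⟨hχ, z, TransGen.single hz, hs⟩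
              · exact ⟨hχ, y, TransGen.head hz hy, hs⟩
          · show (Form.dia (.pref i) ψ ∈ Γ ∧ ∃ y, (G.End x ∧ _ ∧ _) ∧ _) ↔ False
            exact iff_false_intro fun ⟨_, y, h, _⟩ => hx h.1
          · constructor
            · rintro ⟨_, y, hy, hs⟩
              exact ⟨⟨y, GameTree.best_move hy⟩, (hbst y _).mpr hy, hψ, hs⟩
            · rintro ⟨⟨y, hy⟩, h1, _, hs⟩
              exact ⟨hχ, y, (hbst y hy).mp h1, hs⟩
          · constructor
            · rintro ⟨_, y, hy, hs⟩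
              rcases ReflTransGen.cases_head (show ReflTransGen G.best x y from hy) with h | ⟨z, hz, hzy⟩
              · subst h
                exact Or.inl ⟨hψ, hs⟩
              · exact Or.inr ⟨⟨z, GameTree.best_move hz⟩, (hbst z _).mpr hz, hχ, y, hzy, hs⟩
            · rintro (⟨_, hs⟩ | ⟨⟨z, hz⟩, h1, _, y, hy, hs⟩)
              · exact ⟨hχ, x, ReflTransGen.refl, hs⟩
              · exact ⟨hχ, y, ReflTransGen.head ((hbst z hz).mp h1) hy, hs⟩
      · intro k
        obtain ⟨u, hu, hu'⟩ := hlo1 k x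
        obtain ⟨y, hy, huy⟩ := hR u hu
        refine ⟨⟨y, GameTree.best_move hy⟩, (hbst y _).mpr hy, ?_⟩
        show lo k y = lo k x
        apply le_antisymm
        · rw [← hu']
          exact hlo2 k y u huy
        · obtain ⟨w, hw, hw'⟩ := hlo1 k y
          rw [← hw']
          exact hlo2 k x w (hsubR y hy w hw)
      · rintro k ⟨y, hy⟩ h1
        obtain ⟨w, hw, hw'⟩ := hlo1 k y
        show lo k x ≤ lo k y
        rw [← hw']
        exact hlo2 k x w (hsubR y ((hbst y hy).mp h1) w hw)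
      · intro k
        obtain ⟨u, hu, hu'⟩ := hhi1 k x
        obtain ⟨y, hy, huy⟩ := hR u hu
        refine ⟨⟨y, GameTree.best_move hy⟩, (hbst y _).mpr hy, ?_⟩
        show hi k y = hi k x
        apply le_antisymm
        · obtain ⟨w, hw, hw'⟩ := hhi1 k y
          rw [← hw']
          exact hhi2 k x w (hsubR y hy w hw)
        · rw [← hu']
          exact hhi2 k y u huy
      · rintro k ⟨y, hy⟩ h1
        obtain ⟨w, hw, hw'⟩ := hhi1 k y
        show hi k y ≤ hi k x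
        rw [← hw']
        exact hhi2 k x w (hsubR y ((hbst y hy).mp h1) w hw)
      · rintro ⟨i, ψ⟩
        constructor
        · rintro ⟨h1, w, h2, h3, h4, h5⟩
          rcases ReflTransGen.cases_head h3 with h | ⟨z, hz, hzw⟩
          · subst h
            exact absurd h2 hx
          · exact ⟨⟨z, hz⟩, h1, w, h2, hzw, h4, h5⟩
        · rintro ⟨⟨z, hz⟩, h1, w, h2, h3, h4, h5⟩
          exact ⟨h1, w, h2, ReflTransGen.head hz h3, h4, h5⟩
  · intro i ψ h1
    rcases hθ2 i ψ with h | ⟨w, hw, hs, h⟩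
    · exact Or.inl h
    · exact Or.inr ⟨h1, w, hw, G.reachable w, hs, h.symm⟩

end Pool.Agent.H181R4.GL
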